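import Pool.Agent.SNG.St

/-!
# SNG, module B0 (helper63): small `t`, `h ≥ 3`, all members full

With `a = ⌈(t - 1) / 2h⌉ = b + 1`, `J = jh h t ∈ {a, a + 1}`, `c = cf (2h) (t - 2)`: `j ≤ 2 a - 1`, `l ≥ c + 1 - a`.
`2 l ≤ q` gives `2 c + 4 ≤ 4 a + J`, impossible.  For `q = l`: `3 l ≤ X + j`, so `c + 3 ≤ 3 a + J + j ≤ 6 a`, hence `b ≤ 1`;
`b = 1` forces `h = 3`, `t = 8`, `l = 6`, `X = 16`, `μ = 3` and `b = 0` forces `t = 3`, `l = 2`, `μ = 3`.
-/

set_option autoImplicit false

noncomputable section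

open Finset Pool.Agent.Helper64.Rho Pool.Agent.SDG Pool.Agent.SNW
open scoped Classical Pointwise

namespace Pool.Agent.SNG

private theorem B0_jh (h t : ℕ) (hh : 1 ≤ h) : jh h (t + 2) = (t + 1) / (2 * h) + 1 := by
  unfold jh
  have e : t + 2 + 2 * h - 1 = t + 1 + 2 * h := by omega
  rw [e, Nat.add_div_right _ (by omega)]

private theorem B0_step (g t : ℕ) (hg : 1 ≤ g) :
    (t + 1) / g = t / g ∨ ((t + 1) / g = t / g + 1 ∧ t % g + 1 = g) := by
  have h1 : g * (t / g) + t % g = t := Nat.div_add_mod t g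
  have h2 : t % g < g := Nat.mod_lt _ (by omega)
  rcases Nat.lt_or_ge (t % g + 1) g with h3 | h3
  · left
    have h4 : t + 1 = g * (t / g) + (t % g + 1) := by omega
    conv_lhs => rw [h4]
    rw [Nat.mul_add_div (by omega), Nat.div_eq_of_lt h3, add_zero]
  · right
    have h5 : t % g + 1 = g := by omega
    refine ⟨?_, h5⟩
    have h4 : t + 1 = g * (t / g + 1) := by
      rw [mul_add, mul_one]
      omega
    conv_lhs => rw [h4]
    rw [Nat.mul_div_cancel_left _ (by omega)]

private theorem B0_three (l μ X j : ℕ) (hμ : 3 ≤ μ) (h1 : 2 * l ≤ X) (h2 : μ * l ≤ X + j * (μ - 2)) :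
    3 * l ≤ X + j := by
  obtain ⟨m, rfl⟩ : ∃ m, μ = m + 3 := ⟨μ - 3, by omega⟩
  have e : m + 3 - 2 = m + 1 := by omega
  rw [e] at h2
  rcases Nat.lt_or_ge l j with h3 | h3
  · omega
  · have h4 := Nat.mul_le_mul_left m h3
    nlinarith

/-- **B0.** -/
theorem thm_B0 : St_B0 := by
  intro h t l q μ X j hh ht hl hμ H1 H2 H3 H4 H5 H6 H7
  obtain ⟨s, rfl⟩ : ∃ s, t = s + 2 := ⟨t - 2, by omega⟩
  have e1 : s + 2 - 2 = s := by omega
  have e2 : s + 2 - 1 = s + 1 := by omega
  rw [e1, e2] at H1
  rw [e1] at H2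
  rw [e2] at H3
  rw [B0_jh h s (by omega), Nat.add_sub_cancel]
  have s1 := thm_Nm1.1 (2 * h) s
  have s2 := thm_Nm1.1 (2 * h) (s + 1)
  have e3 : s + 1 + 1 = s + 2 := by omega
  rw [e3] at s2
  have hr : s % (2 * h) ≤ 2 * h := (Nat.mod_lt _ (by omega)).le
  have hu : 2 * h * (s / (2 * h)) + s % (2 * h) = s := Nat.div_add_mod s _
  have h1 := thm_Nm1.2.1 (2 * h) (s / (2 * h)) (s % (2 * h)) (by omega) hr
  rw [hu] at h1
  have hst := B0_step (2 * h) s (by omega)
  generalize (s + 1) / (2 * h) = b' at s2 hst ⊢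
  generalize s / (2 * h) = b at s1 h1 hu hst
  generalize s % (2 * h) = r at h1 hu hst hr
  generalize cf (2 * h) (s + 2) = c2 at s2 H4
  generalize cf (2 * h) (s + 1) = c1 at s1 s2 H1 H3
  generalize cf (2 * h) s = c at s1 h1 H1 H2
  have hb : 3 * (b * (b + 1)) ≤ h * (b * (b + 1)) := Nat.mul_le_mul_right _ hh
  have h1' : c = 1 + h * (b * (b + 1)) + r * (b + 1) := by
    have : 2 * c = 2 * (1 + h * (b * (b + 1)) + r * (b + 1)) := by rw [h1]; ring
    omega
  rcases H5 with rfl | H5
  · have h3 := B0_three q μ X j hμ H6 H7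
    rcases Nat.lt_or_ge b 2 with hb2 | hb2
    · interval_cases b
      · -- `b = 0`
        have hc : c = 1 + r := by rw [h1']; ring
        have hs : r = s := by omega
        have hs1 : s = 1 := by omega
        have hq : q = 2 := by omega
        have hX : X = 5 := by omega
        have hj : j = 1 := by omega
        right
        subst hq hX hj
        omega
      · -- `b = 1`
        have hc : c = 1 + 2 * h + 2 * r := by rw [h1']; ring
        have hb' : b' = 1 := by omega
        have hh3 : h = 3 := by omega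
        have hr0 : r = 0 := by omega
        have hq : q = 6 := by omega
        have hj : j = 2 := by omega
        have hX : X = 16 := by omega
        left
        subst hq hX hj hb'
        omega
    · exfalso
      have h5 := Nat.mul_le_mul_right (b + 1) hb2
      have h6 : 0 ≤ r * (b + 1) := Nat.zero_le _
      omega
  · exfalso
    rcases Nat.eq_zero_or_pos b with hb0 | hb0
    · subst hb0
      have hc : c = 1 + r := by rw [h1']; ring
      have hs : r = s := by omega
      omega
    · have h5 := Nat.mul_le_mul_left b (Nat.le_add_left 1 b)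
      have h6 : 0 ≤ r * (b + 1) := Nat.zero_le _
      omega

end Pool.Agent.SNG
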