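import Pool.Agent.SNG.St
import Pool.Agent.SNW.N12

/-!
# SNG: B1, small `t`, cyclic quotient of order `M ≥ l`
-/

set_option autoImplicit false

noncomputable section

open Finset Pool.Agent.Helper64.Rho Pool.Agent.SDG Pool.Agent.SNW
open scoped Classical Pointwise

namespace Pool.Agent.SNG

/-- **B1.** -/
theorem thm_B1 : St_B1 := by
  intro h u v l M Y Q X j hh hu hv hl hA hB hC hD hE hYM hlM hQ hG hH
  obtain ⟨t, ht⟩ : ∃ t, t = u + v := ⟨_, rfl⟩
  rw [← ht] at hA hB hC hD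
  have ht3 : 3 ≤ t := by omega
  -- `a = ⌈(t - 1) / 2h⌉`
  obtain ⟨b, hb⟩ : ∃ b, b = (t - 2) / (2 * h) := ⟨_, rfl⟩
  have hpos : 0 < 2 * h := by omega
  have hb1 : 2 * h * b ≤ t - 2 := by
    rw [hb]
    exact Nat.mul_div_le _ _
  have hb2 : t - 2 < 2 * h * (b + 1) := by
    rw [hb]
    exact Nat.lt_mul_div_succ _ hpos
  have hc1 : cf (2 * h) (t - 1) = cf (2 * h) (t - 2) + b + 1 := by
    have e := thm_Nm1.1 (2 * h) (t - 2)
    have e' : t - 2 + 1 = t - 1 := by omega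
    rw [e'] at e
    rw [e, ← hb]
  obtain ⟨d, hd⟩ : ∃ d, d = (t - 1) / (2 * h) := ⟨_, rfl⟩
  have hd1 : 2 * h * d ≤ t - 1 := by
    rw [hd]
    exact Nat.mul_div_le _ _
  have hc2 : cf (2 * h) t = cf (2 * h) (t - 2) + b + 1 + d + 1 := by
    have e := thm_Nm1.1 (2 * h) (t - 1)
    have e' : t - 1 + 1 = t := by omega
    rw [e', hc1] at e
    rw [e, ← hd]
  have hK : t - 2 + 1 ≤ cf (2 * h) (t - 2) := cf_ge _ _
  have hYv : v + 1 ≤ Y := (cf_ge _ _).trans hE
  obtain ⟨K, hKd⟩ : ∃ K, K = cf (2 * h) (t - 2) := ⟨_, rfl⟩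
  rw [← hKd] at hA hB hc1 hc2 hK
  -- first case
  by_cases hu2 : u ≤ 2 * (b + 1) - 1
  · have h1 := thm_N1 h t (b + 1) u (by omega) (by rw [Nat.add_sub_cancel]; omega) (by omega)
      (by omega) hu hu2
    have e : t - u = v := by omega
    rw [e] at h1
    have h2 : (u + 1) * cf (2 * h) v ≤ Q * Y := Nat.mul_le_mul hQ hE
    omega
  -- second case
  have hu3 : 2 * b + 2 ≤ u := by omega
  rw [hc1] at hA hC
  rw [hc2] at hD
  have hj : j ≤ 2 * b + 1 := by omega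
  have h6b : 6 * b ≤ 2 * h * b := Nat.mul_le_mul_right b (by omega)
  have h6d : 6 * d ≤ 2 * h * d := Nat.mul_le_mul_right d (by omega)
  have hdb : d ≤ b + 1 := by
    by_contra hcon
    have h3 : 2 * h * (b + 1 + 1) ≤ 2 * h * d := Nat.mul_le_mul_left _ (by omega)
    rw [Nat.mul_add (2 * h) (b + 1) 1] at h3
    omega
  -- the main inequality
  obtain ⟨N, rfl⟩ : ∃ N, M = Y + N := ⟨M - Y, by omega⟩
  rw [Nat.add_sub_cancel_left] at hG
  obtain ⟨w, rfl⟩ : ∃ w, u = j + w := ⟨u - j, by omega⟩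
  have hw1 : 1 ≤ w := by omega
  have hG2 : (Y + N) * (j + w + 1) ≤ X + j * N := (Nat.mul_le_mul_left _ hQ).trans hG
  have hG3 : (Y + N) * w + j * Y + (Y + N) ≤ X := by
    have e : (Y + N) * (j + w + 1) = (Y + N) * w + j * Y + (Y + N) + j * N := by ring
    rw [e] at hG2
    omega
  by_cases hw2 : 2 ≤ w
  · have h4 : (Y + N) * 2 ≤ (Y + N) * w := Nat.mul_le_mul_left _ hw2
    generalize (Y + N) * w = Z at hG3 h4
    generalize j * Y = Z' at hG3
    omega
  · have hw : w = 1 := by omega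
    subst hw
    have hj2 : j = 2 * b + 1 := by omega
    subst hj2
    rw [mul_one] at hG3
    have h5 : (2 * b + 1) * 2 ≤ (2 * b + 1) * Y := Nat.mul_le_mul_left _ (by omega)
    generalize (2 * b + 1) * Y = Z' at hG3 h5
    omega

end Pool.Agent.SNG
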