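import Pool.Agent.SNG.St
import Pool.Agent.SNW.N12

/-!
# SNG, module B2 (helper32): noncyclic quotient, maximal candidate, `h ≥ 3`
-/

set_option autoImplicit false

noncomputable section

open Finset Pool.Agent.Helper64.Rho Pool.Agent.SDG Pool.Agent.SNW
open scoped Classical Pointwise

namespace Pool.Agent.SNG

/-- the final computation -/
private theorem B2_fin (u a j Y M C w : ℤ) (ha : 1 ≤ a) (hu : 5 * a + 2 ≤ u) (hj0 : 0 ≤ j)
    (hj : j ≤ 2 * a + 1) (hY : 2 ≤ Y) (hM : 0 ≤ M) (hw : w * 2 ≤ j) (hC : u ≤ C)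
    (hB : C - 4 * a - 2 ≤ j * (M - Y) + M * w)
    (hA : M * (2 * u - 1 - j) ≤ 2 * C + 2 * a + 1 - j * Y) : False := by
  obtain ⟨k, hk⟩ : ∃ k, k = 2 * a + 1 - j := ⟨_, rfl⟩
  have hk0 : 0 ≤ k := by omega
  obtain ⟨A, hA'⟩ : ∃ A, A = 2 * u - 1 - j := ⟨_, rfl⟩
  have hA0 : 0 ≤ A := by omega
  rw [← hA'] at hA
  -- `2 M w ≤ M j`
  have h1 : M * (w * 2) ≤ M * j := mul_le_mul_of_nonneg_left hw hM
  have h2 : 2 * C - 8 * a - 4 + 2 * (j * Y) ≤ 3 * (j * M) := by linarith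
  have h3 : A * (2 * C - 8 * a - 4 + 2 * (j * Y)) ≤ A * (3 * (j * M)) :=
    mul_le_mul_of_nonneg_left h2 hA0
  have h4 : j * (M * A) ≤ j * (2 * C + 2 * a + 1 - j * Y) := mul_le_mul_of_nonneg_left hA hj0
  have h5 : 2 * j ≤ j * Y := by nlinarith
  have h6 : A * (2 * C - 4 * k) ≤ A * (2 * C - 8 * a - 4 + 2 * (j * Y)) :=
    mul_le_mul_of_nonneg_left (by rw [hk]; linarith) hA0
  have h7 : j * (2 * C + 2 * a + 1 - j * Y) ≤ j * (2 * C + k - j) :=
    mul_le_mul_of_nonneg_left (by rw [hk]; linarith) hj0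
  have h8 : A * (2 * C - 4 * k) ≤ 3 * (j * (2 * C + k - j)) := by
    have e : A * (3 * (j * M)) = 3 * (j * (M * A)) := by ring
    linarith
  have h9 : 1 + 4 * k ≤ A - 3 * j := by rw [hA', hk]; linarith
  have hC0 : 0 ≤ C := by linarith
  have h10 : C * (1 + 4 * k) ≤ C * (A - 3 * j) := mul_le_mul_of_nonneg_left h9 hC0
  have h11 : k * u ≤ k * C := mul_le_mul_of_nonneg_left hC hk0
  have h12 : 0 ≤ k * j := mul_nonneg hk0 hj0
  have h13 : 0 ≤ j * j := mul_nonneg hj0 hj0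
  have h14 : k * A = 2 * (k * u) - k - k * j := by rw [hA']; ring
  have h15 : A * (2 * C - 4 * k) = 2 * (C * A) - 4 * (k * A) := by ring
  have h16 : 3 * (j * (2 * C + k - j)) = 6 * (C * j) + 3 * (k * j) - 3 * (j * j) := by ring
  have h17 : C * (1 + 4 * k) = C + 4 * (k * C) := by ring
  have h18 : C * (A - 3 * j) = C * A - 3 * (C * j) := by ring
  rw [h15, h16, h14] at h8
  rw [h17, h18] at h10
  linarith

theorem thm_B2 : St_B2 := by
  intro h u v l M Y Q X j μ i hh hu hv hl H1 H2 H3 H4 H5 H6 H7 H8 H9 H10 H11 H12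
  obtain ⟨n, hn⟩ : ∃ n, n = u + v - 2 := ⟨_, rfl⟩
  have hn1 : u + v - 1 = n + 1 := by omega
  have hn2 : u + v = n + 2 := by omega
  rw [← hn, hn1] at H1
  rw [← hn] at H2
  rw [hn1] at H3
  rw [hn2] at H4
  obtain ⟨a, ha⟩ : ∃ a, a = n / (2 * h) := ⟨_, rfl⟩
  have hg : 0 < 2 * h := by omega
  have hga : 2 * h * a ≤ n := by rw [ha]; exact Nat.mul_div_le n (2 * h)
  have hga' : n < 2 * h * (a + 1) := by
    rw [ha]
    have := Nat.lt_mul_div_succ n hg
    simpa using this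
  have hc1 : cf (2 * h) (n + 1) = cf (2 * h) n + a + 1 := by
    rw [thm_Nm1.1 (2 * h) n, ha]
  have hd : (n + 1) / (2 * h) ≤ a + 1 := by
    have : (n + 1) / (2 * h) < a + 2 := by
      apply Nat.div_lt_of_lt_mul
      have : 2 * h * (a + 2) = 2 * h * (a + 1) + 2 * h := by ring
      omega
    omega
  have hc2 : cf (2 * h) (n + 2) ≤ cf (2 * h) n + 2 * a + 3 := by
    have := thm_Nm1.1 (2 * h) (n + 1)
    have e : n + 1 + 1 = n + 2 := rfl
    rw [e] at this
    omega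
  have hC := cf_ge (2 * h) n
  have hcv := cf_ge (2 * h) v
  -- the product
  have hQY : (2 * u - 1) * cf (2 * h) v + 1 ≤ 2 * cf (2 * h) (n + 1) := by
    have h1 : (2 * u - 1) * cf (2 * h) v ≤ Q * Y := Nat.mul_le_mul (by omega) H5
    omega
  have hva : v ≤ a := by
    by_cases hua : u ≤ 2 * a + 1
    · exfalso
      have h1 := thm_N1 h (n + 2) (a + 1) u (by omega) (by rw [Nat.add_sub_cancel]; omega)
        (by omega) (by omega) (by omega) (by omega)
      have e1 : n + 2 - 1 = n + 1 := by omega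
      have e2 : n + 2 - u = v := by omega
      rw [e1, e2] at h1
      have h2 : (u + 1) * cf (2 * h) v ≤ (2 * u - 1) * cf (2 * h) v :=
        Nat.mul_le_mul_right _ (by omega)
      omega
    · have h1 := cf_le_add (2 * h) (a + 1) v (by omega) (u - 1) (by omega)
      have e1 : v + (u - 1) = n + 1 := by omega
      rw [e1] at h1
      obtain ⟨d, rfl⟩ : ∃ d, u = d + 2 := ⟨u - 2, by omega⟩
      have e2 : d + 2 - 1 = d + 1 := by omega
      have e3 : 2 * (d + 2) - 1 = 2 * d + 3 := by omega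
      rw [e2] at h1
      rw [e3] at hQY
      by_contra hva
      have h2 : a + 2 ≤ cf (2 * h) v := by omega
      have h3 : (2 * d + 1) * (a + 2) ≤ (2 * d + 1) * cf (2 * h) v := Nat.mul_le_mul_left _ h2
      nlinarith
  have ha1 : 1 ≤ a := by omega
  have hu5 : 5 * a + 2 ≤ u := by
    have : 6 * a ≤ 2 * h * a := Nat.mul_le_mul_right a (by omega)
    omega
  have hj : j ≤ 2 * a + 1 := by omega
  have hY2 : 2 ≤ Y := by omega
  obtain ⟨w, hw⟩ : ∃ w, w = j / Y := ⟨_, rfl⟩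
  rw [← hw] at H12
  have hwY : w * Y ≤ j := by rw [hw]; exact Nat.div_mul_le_self j Y
  have hw2 : w * 2 ≤ j := le_trans (Nat.mul_le_mul_left w hY2) hwY
  have h3i : 3 * i ≤ Q + w := by
    by_cases hiw : i ≤ w
    · omega
    · obtain ⟨s, rfl⟩ : ∃ s, i = w + s := ⟨i - w, by omega⟩
      obtain ⟨m, rfl⟩ : ∃ m, μ = m + 3 := ⟨μ - 3, by omega⟩
      have e : m + 3 - 2 = m + 1 := by omega
      rw [e] at H12
      have e1 : (m + 3) * (w + s) = m * w + m * s + 3 * w + 3 * s := by ring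
      have e2 : w * (m + 1) = m * w + w := by ring
      rw [e1, e2] at H12
      have h0 := Nat.zero_le (m * s)
      linarith
  -- the inequality (B)
  have hMi : 3 * l ≤ M * Q + M * w := by
    calc 3 * l ≤ 3 * (M * i) := Nat.mul_le_mul_left 3 H7
      _ = M * (3 * i) := by ring
      _ ≤ M * (Q + w) := Nat.mul_le_mul_left M h3i
      _ = M * Q + M * w := by ring
  have hYM : Y ≤ M := by omega
  have hMY : ((M - Y : ℕ) : ℤ) = (M : ℤ) - Y := by push_cast [hYM]; ring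
  have H9' : (M : ℤ) * Q ≤ X + j * ((M : ℤ) - Y) := by
    rw [← hMY]; exact_mod_cast H9
  have hMi' : 3 * (l : ℤ) ≤ M * Q + M * w := by exact_mod_cast hMi
  have hB : ((cf (2 * h) n : ℕ) : ℤ) - 4 * a - 2 ≤ j * ((M : ℤ) - Y) + M * w := by
    have h1 : 2 * ((cf (2 * h) n : ℕ) : ℤ) + 1 ≤ cf (2 * h) n + a + 1 + l := by
      rw [hc1] at H1; exact_mod_cast H1
    have h2 : (X : ℤ) + 1 ≤ cf (2 * h) n + 2 * a + 3 + l := by
      have : X + 1 ≤ cf (2 * h) n + 2 * a + 3 + l := by omega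
      exact_mod_cast this
    linarith
  have hA : (M : ℤ) * (2 * (u : ℤ) - 1 - j) ≤ 2 * ((cf (2 * h) n : ℕ) : ℤ) + 2 * a + 1 - j * Y := by
    have h1 : (X : ℤ) + 1 ≤ 2 * (cf (2 * h) n + a + 1) := by
      rw [hc1] at H3; exact_mod_cast H3
    have h2 : (2 * (u : ℤ) - 1) ≤ Q := by omega
    have h3 : (M : ℤ) * (2 * (u : ℤ) - 1) ≤ M * Q := mul_le_mul_of_nonneg_left h2 (by positivity)
    have e1 : (M : ℤ) * (2 * (u : ℤ) - 1 - j) = M * (2 * (u : ℤ) - 1) - j * M := by ring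
    have e2 : (j : ℤ) * ((M : ℤ) - Y) = j * M - j * Y := by ring
    rw [e2] at H9'
    rw [e1]
    linarith
  exact B2_fin u a j Y M (cf (2 * h) n : ℕ) w (by exact_mod_cast ha1) (by exact_mod_cast hu5)
    (by positivity) (by exact_mod_cast hj) (by exact_mod_cast hY2) (by positivity)
    (by exact_mod_cast hw2) (by have : u ≤ cf (2 * h) n := by omega
                                exact_mod_cast this) hB hA

end Pool.Agent.SNG
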