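import Pool.Agent.SNG.St

/-!
# SNG, module NA (helper82): the candidate gain for `h ≥ 3`

If `Y ≥ 2 J` the product bound `Q Y ≥ (u + 1) Y` is enough (`cf_le_add`).  Otherwise `v ≤ 2 (J - 1)` and the tangent of
`cf (2 h M) u` at `p = ⌈J / M⌉` gives the gain.
-/

set_option autoImplicit false

noncomputable section

open Finset Pool.Agent.Helper64.Rho Pool.Agent.SDG Pool.Agent.SNW
open scoped Classical Pointwise

namespace Pool.Agent.SNG

private theorem NA_jh (h t : ℕ) (hh : 1 ≤ h) (ht : 1 ≤ t) :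
    ∃ j s : ℕ, jh h t = j + 1 ∧ s < 2 * h ∧ t + s = 2 * h * (j + 1) := by
  have h1 : 2 * h * ((t + 2 * h - 1) / (2 * h)) + (t + 2 * h - 1) % (2 * h) = t + 2 * h - 1 :=
    Nat.div_add_mod _ _
  have h2 : (t + 2 * h - 1) % (2 * h) < 2 * h := Nat.mod_lt _ (by omega)
  unfold jh
  generalize (t + 2 * h - 1) / (2 * h) = J at h1 ⊢
  generalize (t + 2 * h - 1) % (2 * h) = r at h1 h2
  rcases Nat.eq_zero_or_pos J with h3 | h3
  · subst h3
    omega
  · obtain ⟨j, rfl⟩ : ∃ j, J = j + 1 := ⟨J - 1, by omega⟩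
    exact ⟨j, 2 * h - 1 - r, rfl, by omega, by omega⟩

private theorem NA_cf (h t j s : ℕ) (hh : 1 ≤ h) (hs : s < 2 * h) (ht : t + s = 2 * h * (j + 1)) :
    (cf (2 * h) t : ℤ) = 1 + h * j * (j + 1) + (2 * h - s) * (j + 1) := by
  have h1 := thm_Nm1.2.1 (2 * h) j (2 * h - s) (by omega) (by omega)
  have h2 : 2 * h * (j + 1) = 2 * h * j + 2 * h := by ring
  have h3 : 2 * h * j + (2 * h - s) = t := by omega
  rw [h3] at h1
  obtain ⟨r, hr⟩ : ∃ r, r = 2 * h - s := ⟨_, rfl⟩
  rw [← hr] at h1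
  have h4 : (r : ℤ) = 2 * h - s := by
    have : r + s = 2 * h := by omega
    have h5 : (r : ℤ) + s = 2 * h := by exact_mod_cast this
    linarith
  have h5 : (2 : ℤ) * cf (2 * h) t = 2 + 2 * h * j * (j + 1) + 2 * r * (j + 1) := by
    exact_mod_cast h1
  rw [← h4]
  linarith

/-- the difference, `w = M p - J`, `w + z = M - 1` -/
private theorem NA_diff (h s v j Y w z : ℤ) (hh : 3 ≤ h) (hs : s ≤ 2 * h - 1) (hj : v ≤ 2 * j) (hj0 : 0 ≤ j)
    (hY : v + 1 ≤ Y) (hYn : Y ≤ w + z) (hw : 0 ≤ w) (hz : 0 ≤ z) :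
    0 ≤ w * (h * (z + 1) - s - v) + j * ((h - 1) * (w + z) - v - 1 + Y) + h * (w + z) - v - 1 := by
  have h1 : (0 : ℤ) ≤ h * w * z := by positivity
  have h2 : 0 ≤ w * (2 * h - 1 - s) := mul_nonneg hw (by linarith)
  have h3 : 0 ≤ w * (2 * j - v) := mul_nonneg hw (by linarith)
  have h4 : 0 ≤ w * (j * (h - 3)) := mul_nonneg hw (mul_nonneg hj0 (by linarith))
  have h5 : 0 ≤ z * (j * (h - 1)) := mul_nonneg hz (mul_nonneg hj0 (by linarith))
  have h6 : 0 ≤ z * (h - 1) := mul_nonneg hz (by linarith)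
  have h7 : 0 ≤ j * (Y - v - 1) := mul_nonneg hj0 (by linarith)
  nlinarith

/-- **NA.** -/
theorem thm_NA : St_NA := by
  intro h u v M Y Q X e hh hu hv hY hM hQ h1 h2
  obtain ⟨j, s, hJ, hs, ht⟩ := NA_jh h (u + v) (by omega) (by omega)
  rw [hJ, Nat.add_sub_cancel] at h1
  have hvY : v + 1 ≤ Y := (cf_ge (2 * h) v).trans hY
  have hM1 : 1 ≤ M := by omega
  rcases Nat.lt_or_ge Y (2 * (j + 1)) with h3 | h3
  · -- the tangent
    right
    obtain ⟨p, w, hp, hw⟩ : ∃ p w : ℕ, M * p = j + 1 + w ∧ w < M := by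
      have e1 : M * ((j + M) / M) + (j + M) % M = j + M := Nat.div_add_mod _ _
      have e2 : (j + M) % M < M := Nat.mod_lt _ (by omega)
      generalize (j + M) / M = p at e1
      generalize (j + M) % M = r at e1 e2
      exact ⟨p, M - 1 - r, by omega, by omega⟩
    obtain ⟨z, hz⟩ : ∃ z, w + z + 1 = M := ⟨M - 1 - w, by omega⟩
    have h4 := W2_tan (h * M) p u (by
      have := Nat.mul_le_mul (by omega : 1 ≤ h) hM1
      omega)
    have h5 := NA_cf h (u + v) j s (by omega) hs ht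
    have h6 := NA_diff h s v j Y w z (by exact_mod_cast hh) (by
      have : (s : ℤ) + 1 ≤ 2 * h := by exact_mod_cast hs
      linarith) (by
      have : v ≤ 2 * j := by omega
      exact_mod_cast this) (by positivity) (by exact_mod_cast hvY) (by
      have : Y ≤ w + z := by omega
      exact_mod_cast this) (by positivity) (by positivity)
    have h7 : M * (cf (2 * (h * M)) u + e) ≤ X + j * (M - Y) := (Nat.mul_le_mul_left M hQ).trans h1
    have h8 : j * (M - Y) + j * Y = j * M := by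
      rw [← Nat.mul_add, Nat.sub_add_cancel (by omega)]
    have h9 : M * (cf (2 * (h * M)) u + e) + j * Y ≤ X + j * M := by omega
    have g1 : (M : ℤ) * (cf (2 * (h * M)) u + e) + j * Y ≤ X + j * M := by exact_mod_cast h9
    have g2 : (M : ℤ) * p = j + 1 + w := by exact_mod_cast hp
    have g3 : (w : ℤ) + z + 1 = M := by exact_mod_cast hz
    have g4 : (u : ℤ) + v + s = 2 * h * (j + 1) := by exact_mod_cast ht
    have g5 : (M : ℤ) * cf (2 * (h * M)) u ≥ M + (M * p) * u - h * (M * p) * (M * p - M) := by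
      have e1 : (0 : ℤ) ≤ M := by positivity
      have e2 := mul_le_mul_of_nonneg_left h4 e1
      push_cast at e2
      nlinarith
    have g6 : (cf (2 * h) (u + v) : ℤ) + M * (e + 1) ≤ X := by
      rw [g2] at g5
      have e1 : (u : ℤ) = 2 * h * (j + 1) - v - s := by linarith
      have e2 : (M : ℤ) = w + z + 1 := by linarith
      rw [h5]
      rw [e1] at g5
      rw [e2] at g1 g5 ⊢
      nlinarith
    exact_mod_cast g6
  · -- the product bound
    left
    obtain ⟨d, rfl⟩ : ∃ d, u = d + 1 := ⟨u - 1, by omega⟩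
    have e1 : d + 1 + v - 1 = v + d := by omega
    rw [e1]
    have h4 := cf_le_add (2 * h) (j + 1) v (by omega) d (by omega)
    have h5 := cf_ge (2 * (h * M)) (d + 1)
    have h6 : d * (2 * (j + 1)) ≤ d * Y := Nat.mul_le_mul_left d h3
    have h7 : (d + 2) * Y ≤ Q * Y := Nat.mul_le_mul_right Y (by omega)
    nlinarith

end Pool.Agent.SNG
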