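import Pool.Agent.SNG.St

/-!
# SNG, module NB (helper72): the numerical step, the other alternative for `Q`

`J = ⌈(u + v) / 2h⌉`.  If `J ≤ Y` then `Q Y ≥ 2 u Y ≥ 2 cf (2h) (u + v - 1)`.  Otherwise the tangent of
`cf (2hM) (u - 1)` at `p = ⌈J / M⌉`.
-/

set_option autoImplicit false

noncomputable section

open Finset Pool.Agent.Helper64.Rho Pool.Agent.SDG Pool.Agent.SNW
open scoped Classical Pointwise

namespace Pool.Agent.SNG

private theorem NB_add (g v k J : ℕ) (hJ : (k + v) / g + 1 ≤ J) : cf g (k + v) ≤ cf g v + k * J := by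
  induction k with
  | zero => simp
  | succ k ih =>
    have h1 : (k + v) / g ≤ (k + 1 + v) / g := Nat.div_le_div_right (by omega)
    have h2 := ih (by omega)
    have h3 : k + 1 + v = (k + v) + 1 := by ring
    rw [h3, thm_Nm1.1, Nat.succ_mul]
    omega

/-- case `J ≤ M`, `J > Y` -/
private theorem NB_one (g k v M Y a r Q X : ℤ) (hg : 6 ≤ g) (hY : v + 1 ≤ Y) (hM : a + 1 ≤ M)
    (ha : Y ≤ a) (hv : 1 ≤ v) (hr : 0 ≤ r) (hN : k + v = g * a + r) (hQ : 2 * (k + 1) ≤ Q)
    (h : M * Q ≤ X + a * (M - Y)) : 2 + g * a * (a + 1) + 2 * r * (a + 1) ≤ X := by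
  have hM0 : 0 ≤ M := by linarith
  have h1 : M * (2 * (k + 1)) ≤ M * Q := mul_le_mul_of_nonneg_left hQ hM0
  have hk : k = g * a + r - v := by linarith
  rw [hk] at h1
  have h2 : 0 ≤ r * (M - (a + 1)) := mul_nonneg hr (by linarith)
  have hga : 6 * a ≤ g * a := mul_le_mul_of_nonneg_right hg (by linarith)
  have h3 : 0 ≤ (M - (a + 1)) * (2 * (g * a) - 2 * v + 2 - a) :=
    mul_nonneg (by linarith) (by linarith)
  have h4 : 0 ≤ (a + 1) * (g * a - 6 * a) := mul_nonneg (by linarith) (by linarith)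
  have h5 : 0 ≤ (a + 1) * (a - v - 1) := mul_nonneg (by linarith) (by linarith)
  have h6 : 0 ≤ a * (Y - v - 1) := mul_nonneg (by linarith) (by linarith)
  have h7 : 0 ≤ a * a := mul_nonneg (by linarith) (by linarith)
  have h8 : 0 ≤ a * v := mul_nonneg (by linarith) (by linarith)
  nlinarith

/-- case `J > M` -/
private theorem NB_two (g k v M Y a r Q X w p c : ℤ) (hg : 6 ≤ g) (hY : v + 1 ≤ Y) (hM : Y + 1 ≤ M)
    (ha : M ≤ a) (hv : 1 ≤ v) (hr : 0 ≤ r) (hN : k + v = g * a + r) (hQ : 2 * c ≤ Q)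
    (hw : 0 ≤ w) (hw' : w + 1 ≤ M) (hp : M * p = a + 1 + w)
    (hc : 2 * (p * k) ≤ 2 * (c - 1) + g * M * p * (p - 1))
    (h : M * Q ≤ X + a * (M - Y)) : 2 + g * a * (a + 1) + 2 * r * (a + 1) ≤ X := by
  have hM0 : 0 ≤ M := by linarith
  have h1 : M * (2 * c) ≤ M * Q := mul_le_mul_of_nonneg_left hQ hM0
  have h2 : M * (2 * (p * k)) ≤ M * (2 * (c - 1) + g * M * p * (p - 1)) :=
    mul_le_mul_of_nonneg_left hc hM0
  have hk : k = g * a + r - v := by linarith
  have h3 : M * (2 * (p * k)) = 2 * (a + 1 + w) * (g * a + r - v) := by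
    rw [← hp, hk]
    ring
  have h4 : M * (2 * (c - 1) + g * M * p * (p - 1)) =
      M * (2 * c) - 2 * M + g * (a + 1 + w) * (a + 1 + w - M) := by
    rw [← hp]
    ring
  rw [h3, h4] at h2
  -- the difference, `s' = g - r`
  have h5 : 0 ≤ (a - M) * (g * (M - 1) - 2 * v - M + Y) := by
    apply mul_nonneg (by linarith)
    nlinarith
  have h6 : 0 ≤ w * g * (M - 1 - w) := mul_nonneg (mul_nonneg hw (by linarith)) (by linarith)
  have h7 : 0 ≤ w * r := mul_nonneg hw hr
  have h8 : 0 ≤ (M - 1 - w) * (g + 2 * v) := mul_nonneg (by linarith) (by linarith)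
  have h9 : 0 ≤ M * ((g - 6) * (M - 1)) :=
    mul_nonneg hM0 (mul_nonneg (by linarith) (by linarith))
  have h10 : 0 ≤ M * (M - v - 2) := mul_nonneg hM0 (by linarith)
  have h11 : 0 ≤ M * (Y - v - 1) := mul_nonneg hM0 (by linarith)
  have h12 : 0 ≤ M * v := mul_nonneg hM0 (by linarith)
  nlinarith

/-- [NB] -/
theorem thm_NB : St_NB := by
  intro h u v M Y Q X hh hu hv hY hM hQ h1 h2
  obtain ⟨k, rfl⟩ : ∃ k, u = k + 1 := ⟨u - 1, by omega⟩
  have hk : 1 ≤ k := by omega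
  have e1 : k + 1 - 1 = k := by omega
  have e2 : k + 1 + v - 1 = k + v := by omega
  rw [e1] at hQ
  rw [e2]
  have hYv : v + 1 ≤ Y := (thm_Nm1.2.2.2.2.2 (2 * h) v).trans hY
  have hck : k + 1 ≤ cf (2 * (h * M)) k := thm_Nm1.2.2.2.2.2 _ k
  have hJ : jh h (k + 1 + v) = (k + v) / (2 * h) + 1 := by
    unfold jh
    have : k + 1 + v + 2 * h - 1 = (k + v) + 2 * h := by omega
    rw [this, Nat.add_div_right _ (by omega)]
  rw [hJ, Nat.add_sub_cancel] at h1
  obtain ⟨a, ha⟩ : ∃ a, a = (k + v) / (2 * h) := ⟨_, rfl⟩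
  obtain ⟨r, hr⟩ : ∃ r, r = (k + v) % (2 * h) := ⟨_, rfl⟩
  have hN : 2 * h * a + r = k + v := by rw [ha, hr]; exact Nat.div_add_mod _ _
  have hrlt : r < 2 * h := by rw [hr]; exact Nat.mod_lt _ (by omega)
  rw [← ha] at h1
  rcases Nat.lt_or_ge a Y with hlt | hge
  · have h3 : cf (2 * h) (k + v) ≤ cf (2 * h) v + k * Y := NB_add _ _ _ _ (by rw [← ha]; omega)
    have h4 : (2 * (k + 1)) * Y ≤ Q * Y := Nat.mul_le_mul_right _ (by omega)
    have h5 : (2 * (k + 1)) * Y = 2 * (k * Y) + 2 * Y := by ring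
    omega
  · have hcl := thm_Nm1.2.1 (2 * h) a r (by omega) hrlt.le
    rw [hN] at hcl
    have h1' : (M : ℤ) * Q ≤ X + a * (M - Y) := by
      have h3 : ((M - Y : ℕ) : ℤ) = (M : ℤ) - Y := by push_cast [Nat.cast_sub (by omega : Y ≤ M)]; ring
      rw [← h3]
      exact_mod_cast h1
    have hN' : (k : ℤ) + v = 2 * h * a + r := by exact_mod_cast hN.symm
    have hg : (6 : ℤ) ≤ 2 * h := by omega
    have goal : (2 : ℤ) + (2 * h) * a * (a + 1) + 2 * r * (a + 1) ≤ X := by
      rcases Nat.lt_or_ge a M with hlt | hge'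
      · exact NB_one (2 * h) k v M Y a r Q X hg (by omega) (by omega) (by omega) (by omega)
          (by omega) hN' (by omega) h1'
      · obtain ⟨p, hp⟩ : ∃ p, p = (a + M) / M := ⟨_, rfl⟩
        obtain ⟨z, hz⟩ : ∃ z, z = (a + M) % M := ⟨_, rfl⟩
        have hM1 : 0 < M := by omega
        have hpz : M * p + z = a + M := by rw [hp, hz]; exact Nat.div_add_mod _ _
        have hzlt : z < M := by rw [hz]; exact Nat.mod_lt _ hM1
        have ht := W2_tan (h * M) p k (Nat.mul_pos (by omega) hM1)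
        have hpz' : (M : ℤ) * p + z = a + M := by exact_mod_cast hpz
        refine NB_two (2 * h) k v M Y a r Q X (M - 1 - z) p (cf (2 * (h * M)) k) hg (by omega)
          (by omega) (by omega) (by omega) (by omega) hN' (by exact_mod_cast hQ) (by omega)
          (by omega) (by linarith) ?_ h1'
        push_cast at ht
        nlinarith
    have hcl' : (2 : ℤ) * cf (2 * h) (k + v) = 2 + (2 * h) * a * (a + 1) + 2 * r * (a + 1) := by
      exact_mod_cast hcl
    have : (2 : ℤ) * cf (2 * h) (k + v) ≤ X := by rw [hcl']; exact goal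
    exact_mod_cast this

end Pool.Agent.SNG
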