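import Pool.Agent.SNG.St

/-!
# SNG [NC]: cap 2, cyclic quotient: gain `M - 1`

With `J = ⌈t / 2⌉`, `s = 2 J - t`, the tangent of `cf (2 M) u` at `p` and `w = M p - J` the difference is
`(J - 1) (M - a + Y - 1 - v) + (M - 1 - v) + w (M - w - s - v)`.
-/

set_option autoImplicit false

noncomputable section

open Finset Pool.Agent.Helper64.Rho Pool.Agent.SDG Pool.Agent.SNW
open scoped Classical Pointwise

namespace Pool.Agent.SNG

private theorem NC_cf (t : ℕ) : t * t + 2 * t + 4 ≤ 4 * cf 2 t ∧ 4 * cf 2 t ≤ t * t + 2 * t + 5 := by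
  rw [thm_Nm1.2.2.1 t]
  rcases Nat.even_or_odd' t with ⟨b, rfl | rfl⟩
  · have e1 : (2 * b + 1) ^ 2 = 4 * (b * b + b) + 1 := by ring
    have e2 : (4 * (b * b + b) + 1) / 4 = b * b + b := by omega
    have e3 : 2 * b * (2 * b) = 4 * (b * b) := by ring
    rw [e1, e2, e3]
    omega
  · have e1 : (2 * b + 1 + 1) ^ 2 = 4 * (b * b + 2 * b + 1) := by ring
    have e2 : (4 * (b * b + 2 * b + 1)) / 4 = b * b + 2 * b + 1 := by omega
    have e3 : (2 * b + 1) * (2 * b + 1) = 4 * (b * b) + 4 * b + 1 := by ring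
    rw [e1, e2, e3]
    omega

private theorem NC_pn (t : ℕ) : pn t ≤ 2 * cf 2 (t - 1) := by
  unfold pn
  split_ifs with h1 h2
  · subst h1
    simp [cf, Finset.sum_range_succ]
  · subst h2
    simp [cf, Finset.sum_range_succ]
  · exact le_rfl

/-- the product bound -/
private theorem NC_prod (u v : ℕ) (hu : 2 ≤ u) (hv : u + 1 ≤ v) :
    pn (u + v) ≤ (u + 1) * cf 2 v := by
  refine (NC_pn _).trans ?_
  obtain ⟨h1, -⟩ := NC_cf v
  obtain ⟨-, h2⟩ := NC_cf (u + v - 1)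
  obtain ⟨w, hw⟩ : ∃ w, w = u + v - 1 := ⟨_, rfl⟩
  rw [← hw] at h2 ⊢
  have hw' : w + 1 = u + v := by omega
  rcases Nat.lt_or_ge v 4 with h3 | h3
  · have h4 : v = 3 := by omega
    have h5 : u = 2 := by omega
    subst h4 h5
    have h6 : w = 4 := by omega
    subst h6
    simp [cf, Finset.sum_range_succ]
  · obtain ⟨k, rfl⟩ : ∃ k, u = k + 2 := ⟨u - 2, by omega⟩
    obtain ⟨d, rfl⟩ : ∃ d, v = k + 3 + d := ⟨v - (k + 3), by omega⟩
    have h7 : w = 2 * k + d + 4 := by omega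
    subst h7
    have h8 : 1 ≤ k + d := by omega
    have h9 : (k + 2 + 1) * ((k + 3 + d) * (k + 3 + d) + 2 * (k + 3 + d) + 4) ≤
        (k + 2 + 1) * (4 * cf 2 (k + 3 + d)) := Nat.mul_le_mul_left _ h1
    have h10 : 2 * ((2 * k + d + 4) * (2 * k + d + 4) + 2 * (2 * k + d + 4) + 5) ≤
        (k + 2 + 1) * ((k + 3 + d) * (k + 3 + d) + 2 * (k + 3 + d) + 4) := by
      rcases Nat.eq_zero_or_pos k with rfl | hk
      · obtain ⟨e, rfl⟩ : ∃ e, d = e + 1 := ⟨d - 1, by omega⟩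
        nlinarith
      · obtain ⟨j, rfl⟩ : ∃ j, k = j + 1 := ⟨k - 1, by omega⟩
        nlinarith [Nat.zero_le (j * j * j), Nat.zero_le (j * j * d), Nat.zero_le (j * d * d),
          Nat.zero_le (j * j), Nat.zero_le (j * d), Nat.zero_le (d * d)]
    nlinarith

/-- the difference -/
private theorem NC_key (u v M a Y Q X J s p : ℤ) (hM : 0 ≤ M) (hu : u = 2 * J - s - v)
    (hQ : p * u ≤ Q - 1 + M * p * (p - 1)) (hA : M * Q ≤ X + (J - 1) * (a - Y))
    (hD : 0 ≤ (J - 1) * (M - a + Y - 1 - v) + (M - 1 - v) +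
      (M * p - J) * (M - (M * p - J) - s - v)) :
    1 + J * (J + 1 - s) + M ≤ X + 1 := by
  subst hu
  have h1 := mul_le_mul_of_nonneg_left hQ hM
  have h2 : (J - 1) * (M - a + Y - 1 - v) + (M - 1 - v) +
      (M * p - J) * (M - (M * p - J) - s - v) =
      M * (p * (2 * J - s - v)) - M * (M * p * (p - 1)) - (J - 1) * (a - Y) -
        J * (J + 1 - s) := by ring
  rw [h2] at hD
  have h3 : M * (Q - 1 + M * p * (p - 1)) = M * Q - M + M * (M * p * (p - 1)) := by ring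
  rw [h3] at h1
  linarith

theorem thm_NC : St_NC := by
  intro u v m a Y Q X hu hv hm hY ha hQ hA hB
  obtain ⟨M, hMdef⟩ : ∃ M, M = m * a := ⟨_, rfl⟩
  rw [← hMdef] at hQ hA ⊢
  have haM : a ≤ M := by
    rw [hMdef]
    exact Nat.le_mul_of_pos_left _ hm
  obtain ⟨t, ht⟩ : ∃ t, t = u + v := ⟨_, rfl⟩
  obtain ⟨J, hJ⟩ : ∃ J, J = jh 1 (u + v) := ⟨_, rfl⟩
  rw [← hJ] at hA
  unfold jh at hJ
  have hJ' : J = (u + v + 1) / 2 := by
    rw [hJ]
    congr 1
  clear hJ
  obtain ⟨s, hs⟩ : ∃ s, s = 2 * J - (u + v) := ⟨_, rfl⟩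
  have hs1 : s ≤ 1 := by omega
  have hs2 : u + v + s = 2 * J := by omega
  have hQu : u + 1 ≤ Q := (thm_Nm1.2.2.2.2.2 (2 * M) u).trans hQ
  have hYv : v + 1 ≤ Y := (thm_Nm1.2.2.2.2.2 2 v).trans hY
  rcases Nat.lt_or_ge u J with huJ | huJ
  · -- the product bound
    left
    refine (NC_prod u v hu (by omega)).trans ?_
    refine (Nat.mul_le_mul hQu hY).trans ?_
    refine le_trans ?_ hB
    rw [mul_assoc]
    exact Nat.le_mul_of_pos_left _ hm
  right
  by_cases hexc : m = 1 ∧ v ≤ 2 ∧ Y = v + 1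
  · exact Or.inr hexc
  left
  have hM1 : 1 ≤ M := by omega
  -- `cf 2 t`
  have hcf : cf 2 (u + v) = 1 + J * (J + 1 - s) := by
    rw [thm_Nm1.2.2.1]
    rcases Nat.le_one_iff_eq_zero_or_eq_one.1 hs1 with h0 | h0
    · have e1 : u + v = 2 * J := by omega
      have e2 : (2 * J + 1) ^ 2 = 4 * (J * J + J) + 1 := by ring
      have e3 : (4 * (J * J + J) + 1) / 4 = J * J + J := by omega
      rw [e1, e2, e3, h0, Nat.sub_zero]
      ring
    · have e1 : u + v + 1 = 2 * J := by omega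
      have e2 : (2 * J) ^ 2 = 4 * (J * J) := by ring
      have e3 : (4 * (J * J)) / 4 = J * J := by omega
      rw [e1, e2, e3, h0, Nat.add_sub_cancel]
  have hJ1 : 1 ≤ J := by omega
  have hAz : (M : ℤ) * Q ≤ X + ((J : ℤ) - 1) * ((a : ℤ) - Y) := by
    have h1 : ((M * Q : ℕ) : ℤ) ≤ ((X + (J - 1) * (a - Y) : ℕ) : ℤ) := by exact_mod_cast hA
    push_cast [Nat.cast_sub hJ1, Nat.cast_sub (show Y ≤ a by omega)] at h1
    exact h1
  have huz : (u : ℤ) = 2 * J - s - v := by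
    have : ((u + v + s : ℕ) : ℤ) = ((2 * J : ℕ) : ℤ) := by exact_mod_cast hs2
    push_cast at this
    linarith
  have hfin : (∃ p : ℕ, 0 ≤ ((J : ℤ) - 1) * ((M : ℤ) - a + Y - 1 - v) + ((M : ℤ) - 1 - v) +
      ((M : ℤ) * p - J) * ((M : ℤ) - ((M : ℤ) * p - J) - s - v)) →
      cf 2 (u + v) + M ≤ X + 1 := by
    rintro ⟨p, hD⟩
    have h1 := W2_tan M p u hM1
    have h2 : (cf (2 * M) u : ℤ) ≤ Q := by exact_mod_cast hQ
    have h3 := NC_key (u : ℤ) v M a Y Q X J s p (by positivity) huz (by linarith) hAz hD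
    have h4 : ((cf 2 (u + v) : ℕ) : ℤ) = 1 + (J : ℤ) * ((J : ℤ) + 1 - s) := by
      rw [hcf]
      push_cast [Nat.cast_sub (show s ≤ J + 1 by omega)]
      rfl
    have h5 : ((cf 2 (u + v) + M : ℕ) : ℤ) ≤ ((X + 1 : ℕ) : ℤ) := by
      push_cast
      rw [h4]
      exact h3
    exact_mod_cast h5
  apply hfin
  -- the numbers `q`, `z`
  obtain ⟨q, z, hz1, hz2, hqz⟩ : ∃ q z : ℕ, 1 ≤ z ∧ z ≤ M ∧ J = M * q + z := by
    refine ⟨(J - 1) / M, (J - 1) % M + 1, by omega, ?_, ?_⟩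
    · have := Nat.mod_lt (J - 1) hM1
      omega
    · have := Nat.div_add_mod (J - 1) M
      omega
  obtain ⟨g, hg⟩ : ∃ g : ℤ, g = (M : ℤ) - a + Y - 1 - v := ⟨_, rfl⟩
  have hJz : (J : ℤ) = M * q + z := by exact_mod_cast hqz
  have haMz : (a : ℤ) ≤ M := by exact_mod_cast haM
  have haz : (Y : ℤ) + 1 ≤ a := by exact_mod_cast ha
  have hYz : (v : ℤ) + 1 ≤ Y := by exact_mod_cast hYv
  have hzz1 : (1 : ℤ) ≤ z := by exact_mod_cast hz1
  have hzz2 : (z : ℤ) ≤ M := by exact_mod_cast hz2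
  have hJz1 : (1 : ℤ) ≤ J := by exact_mod_cast hJ1
  have hvz : (1 : ℤ) ≤ v := by exact_mod_cast hv
  have hs0 : (0 : ℤ) ≤ s := Int.natCast_nonneg s
  have hs1z : (s : ℤ) ≤ 1 := by exact_mod_cast hs1
  have hg0 : 0 ≤ g := by omega
  rw [← hg]
  have hw1 : (M : ℤ) * ((q + 1 : ℕ) : ℤ) - J = M - z := by
    rw [hJz]
    push_cast
    ring
  have hw2 : (M : ℤ) * (q : ℤ) - J = -z := by
    rw [hJz]
    ring
  rcases Nat.lt_or_ge z (s + v) with hzs | hzs
  · -- `z < s + v`: here `J ≥ M + z`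
    have hq1 : 1 ≤ q := by
      rcases Nat.eq_zero_or_pos q with h0 | h0
      · exfalso
        rw [h0, mul_zero, zero_add] at hqz
        omega
      · exact h0
    have hJM : (M : ℤ) + z ≤ J := by
      rw [hJz]
      have : (M : ℤ) * 1 ≤ M * q := mul_le_mul_of_nonneg_left (by exact_mod_cast hq1) (by omega)
      linarith
    have hzsz : (z : ℤ) + 1 ≤ s + v := by exact_mod_cast hzs
    rcases le_or_gt (z : ℤ) g with h1 | h1
    · refine ⟨q, ?_⟩
      rw [hw2]
      have h2 : ((M : ℤ) + z - 1) * g ≤ (J - 1) * g := mul_le_mul_of_nonneg_right (by linarith) hg0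
      have h3 : ((M : ℤ) + z - 1) * z ≤ ((M : ℤ) + z - 1) * g :=
        mul_le_mul_of_nonneg_left h1 (by linarith)
      have h4 : (z : ℤ) * (M + z - s - v) ≤ z * (M + z - 1) :=
        mul_le_mul_of_nonneg_left (by linarith) (by linarith)
      nlinarith
    · rcases le_or_gt ((s : ℤ) + v - z) g with h2 | h2
      · refine ⟨q + 1, ?_⟩
        rw [hw1]
        have h3 : ((M : ℤ) + z - 1) * g ≤ (J - 1) * g :=
          mul_le_mul_of_nonneg_right (by linarith) hg0
        have h4 : ((M : ℤ) - z) * (s + v - z) ≤ (M - z) * g :=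
          mul_le_mul_of_nonneg_left h2 (by linarith)
        have h5 : ((M : ℤ) - z) * g ≤ (M + z - 1) * g :=
          mul_le_mul_of_nonneg_right (by linarith) hg0
        nlinarith
      · -- only `v = 3`
        have hm1 : m = 1 := by
          by_contra h0
          have h3 : 2 * a ≤ M := by
            rw [hMdef]
            exact Nat.mul_le_mul_right a (by omega)
          have h4 : 2 * (a : ℤ) ≤ M := by exact_mod_cast h3
          omega
        have hMa : M = a := by rw [hMdef, hm1, one_mul]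
        have h3 := W2_tan 1 2 v le_rfl
        have h4 : (cf (2 * 1) v : ℤ) ≤ Y := by exact_mod_cast hY
        push_cast at h3
        have hMaz : (M : ℤ) = a := by exact_mod_cast hMa
        have h5 : 1 ≤ g := by
          by_contra h0
          apply hexc
          refine ⟨hm1, ?_, ?_⟩
          · omega
          · omega
        have h6 : (v : ℤ) = 3 := by omega
        have h7 : g = 1 := by omega
        have h8 : (s : ℤ) = 1 := by omega
        have h9 : (z : ℤ) = 2 := by omega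
        refine ⟨q + 1, ?_⟩
        rw [hw1, h6, h7, h8, h9]
        nlinarith
  · refine ⟨q + 1, ?_⟩
    rw [hw1]
    have hzsz : (s : ℤ) + v ≤ z := by exact_mod_cast hzs
    have h1 : 0 ≤ ((J : ℤ) - 1) * g := mul_nonneg (by linarith) hg0
    have h2 : 0 ≤ ((M : ℤ) - z) * (z - s - v) := mul_nonneg (by linarith) (by linarith)
    nlinarith

end Pool.Agent.SNG
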