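import Pool.Agent.SNG.St

/-!
# SNG, module ND (helper75): numbers, cap 2, noncyclic quotient with gain `e ≥ 2`

If `2 u ≤ v² - 2 v + 4` the product bound `Q Y ≥ (u + 3) Y` is enough.  Otherwise put `a = Y + d`; the gain holds when
`Y (2 u + 4) + (6 - 2 v) d ≥ (v + 1) (2 u + v + 1)`, and if this fails then `v ≥ 4` and `4 d ≥ u v`, so that
`4 X ≥ 4 Y (u + 3) + 2 d (u + 7 - v)` is large enough.
-/

set_option autoImplicit false

noncomputable section

open Finset Pool.Agent.Helper64.Rho Pool.Agent.SDG Pool.Agent.SNW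
open scoped Classical Pointwise

namespace Pool.Agent.SNG

/-- `4 c(v) ≥ 3 + (v + 1)²` -/
private theorem ND_low (v : ℕ) : (3 : ℤ) + (v + 1) ^ 2 ≤ 4 * cf 2 v := by
  rcases Nat.even_or_odd' v with ⟨b, rfl | rfl⟩
  · have h := thm_Nm1.2.1 2 b 0 (by norm_num) (by norm_num)
    simp only [add_zero, mul_zero, zero_mul] at h
    have h2 : (2 : ℤ) * cf 2 (2 * b) = 2 + 2 * b * (b + 1) := by exact_mod_cast h
    push_cast
    nlinarith
  · have h := thm_Nm1.2.1 2 b 1 (by norm_num) (by norm_num)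
    have h2 : (2 : ℤ) * cf 2 (2 * b + 1) = 2 + 2 * b * (b + 1) + 2 * 1 * (b + 1) := by
      exact_mod_cast h
    push_cast
    nlinarith

/-- `4 c(t) ≤ 4 + (t + 1)²` -/
private theorem ND_up (t : ℕ) : (4 : ℤ) * cf 2 t ≤ 4 + (t + 1) ^ 2 := by
  have h1 := thm_Nm1.2.2.1 t
  have h2 : 4 * cf 2 t ≤ 4 + (t + 1) ^ 2 := by omega
  exact_mod_cast h2

/-- `2 pn t ≤ 4 + t²` -/
private theorem ND_pn (t : ℕ) (ht : 1 ≤ t) : (2 : ℤ) * pn t ≤ 4 + (t : ℤ) ^ 2 := by
  have h1 : 2 * pn t ≤ 4 + t ^ 2 := by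
    unfold pn
    by_cases h4 : t = 4
    · subst h4
      norm_num
    · rw [if_neg h4]
      by_cases h6 : t = 6
      · subst h6
        norm_num
      · rw [if_neg h6]
        have h2 := thm_Nm1.2.2.1 (t - 1)
        rw [Nat.sub_add_cancel ht] at h2
        rw [h2]
        omega
  exact_mod_cast h1

/-- `4 M c(2M, n) ≥ 4 M + 2 M n + n²` -/
private theorem ND_cf (M n : ℕ) (hM : 1 ≤ M) :
    (4 : ℤ) * M + 2 * M * n + n ^ 2 ≤ 4 * M * cf (2 * M) n := by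
  have hr : n % (2 * M) ≤ 2 * M := (Nat.mod_lt _ (by omega)).le
  have hu : 2 * M * (n / (2 * M)) + n % (2 * M) = n := Nat.div_add_mod n _
  have h1 := thm_Nm1.2.1 (2 * M) (n / (2 * M)) (n % (2 * M)) (by omega) hr
  rw [hu] at h1
  generalize n / (2 * M) = b at h1 hu
  generalize n % (2 * M) = r at h1 hu hr
  have h2 : (2 : ℤ) * cf (2 * M) n = 2 + 2 * M * b * (b + 1) + 2 * r * (b + 1) := by
    exact_mod_cast h1
  have h3 : (2 : ℤ) * M * b + r = n := by exact_mod_cast hu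
  have hr' : (r : ℤ) ≤ 2 * M := by exact_mod_cast hr
  have hr0 : (0 : ℤ) ≤ r := Int.natCast_nonneg r
  have h4 : (4 : ℤ) * M * cf (2 * M) n = 2 * M * (2 + 2 * M * b * (b + 1) + 2 * r * (b + 1)) := by
    rw [← h2]
    ring
  rw [h4, ← h3]
  nlinarith [mul_nonneg hr0 (sub_nonneg.2 hr')]

/-- the product bound -/
private theorem ND_prod (u v Y Q X p : ℤ) (hu : 0 ≤ u) (hv : 0 ≤ v) (hY : 3 + (v + 1) ^ 2 ≤ 4 * Y)
    (hQ : u + 3 ≤ Q) (h2 : Q * Y ≤ X) (hp : 2 * p ≤ 4 + (u + v) ^ 2)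
    (hc : 2 * u ≤ v * v - 2 * v + 4) : p ≤ X := by
  have hY0 : 0 ≤ Y := by nlinarith
  have h3 : (u + 3) * Y ≤ Q * Y := mul_le_mul_of_nonneg_right hQ hY0
  have h4 : (u + 3) * (3 + (v + 1) ^ 2) ≤ (u + 3) * (4 * Y) := mul_le_mul_of_nonneg_left hY (by linarith)
  have h5 : 0 ≤ u * (v * v - 2 * v + 4 - 2 * u) := mul_nonneg hu (by linarith)
  have h6 : 0 ≤ v * v := mul_nonneg hv hv
  nlinarith

/-- the gain, when `a = Y + d` is not too large -/
private theorem ND_gain (u v M Y d j c e Q X k : ℤ) (hu : 0 ≤ u) (hd : 0 ≤ d) (hM : Y + d ≤ M) (hM0 : 0 ≤ M)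
    (hj : 2 * j ≤ u + v - 1) (hc : 4 * M + 2 * M * u + u ^ 2 ≤ 4 * M * c) (hQ : c + e ≤ Q)
    (h1 : M * Q ≤ X + j * d) (hk : 4 * k ≤ 4 + (u + v + 1) ^ 2)
    (hG : (v + 1) * (2 * u + v + 1) ≤ Y * (4 + 2 * u) + d * (6 - 2 * v)) : k + M * e ≤ X + 1 := by
  have h2 : M * (c + e) ≤ M * Q := mul_le_mul_of_nonneg_left hQ hM0
  have h3 : (2 * j) * d ≤ (u + v - 1) * d := mul_le_mul_of_nonneg_right hj hd
  have h4 : (Y + d) * (4 + 2 * u) ≤ M * (4 + 2 * u) := mul_le_mul_of_nonneg_right hM (by linarith)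
  nlinarith

/-- large `a` -/
private theorem ND_big (u v M Y d j Q X p : ℤ) (hu : 2 ≤ u) (hv : 4 ≤ v) (hY : 3 + (v + 1) ^ 2 ≤ 4 * Y) (hd : 0 ≤ d)
    (hM : Y + d ≤ M) (hj : 2 * j ≤ u + v - 1) (hQ : u + 3 ≤ Q) (h1 : M * Q ≤ X + j * d)
    (hp : 2 * p ≤ 4 + (u + v) ^ 2) (hc : v * v - 2 * v + 5 ≤ 2 * u)
    (hG : Y * (4 + 2 * u) + d * (6 - 2 * v) < (v + 1) * (2 * u + v + 1)) : p ≤ X := by
  have h2 : (3 + (v + 1) ^ 2) * (4 + 2 * u) ≤ 4 * Y * (4 + 2 * u) :=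
    mul_le_mul_of_nonneg_right hY (by linarith)
  have h3 : u * v * (v - 2) + 6 < 4 * d * (v - 3) := by nlinarith
  have h4 : 0 ≤ u * v := mul_nonneg (by linarith) (by linarith)
  have h5 : u * v < 4 * d := by
    by_contra hcon
    have h6 : 4 * d * (v - 3) ≤ u * v * (v - 3) := mul_le_mul_of_nonneg_right (by linarith) (by linarith)
    nlinarith
  have h7 : 0 ≤ u + 7 - v := by nlinarith
  have hY0 : 0 ≤ Y := by nlinarith
  have h8 : (Y + d) * (u + 3) ≤ M * Q := by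
    have e1 : (Y + d) * (u + 3) ≤ M * (u + 3) := mul_le_mul_of_nonneg_right hM (by linarith)
    have e2 : M * (u + 3) ≤ M * Q := mul_le_mul_of_nonneg_left hQ (by linarith)
    linarith
  have h9 : (2 * j) * d ≤ (u + v - 1) * d := mul_le_mul_of_nonneg_right hj hd
  -- `4 X ≥ 4 Y (u + 3) + 2 d (u + 7 - v)`
  have g1 : 4 * Y * (u + 3) + 2 * d * (u + 7 - v) ≤ 4 * X := by nlinarith
  have g2 : (3 + (v + 1) ^ 2) * (u + 3) ≤ 4 * Y * (u + 3) := mul_le_mul_of_nonneg_right hY (by linarith)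
  have g3 : u * v * (u + 7 - v) ≤ 4 * d * (u + 7 - v) := mul_le_mul_of_nonneg_right h5.le h7
  have g4 : 0 ≤ u * u * (v - 4) := mul_nonneg (mul_nonneg (by linarith) (by linarith)) (by linarith)
  have g5 : 0 ≤ u * (v * v) := mul_nonneg (by linarith) (mul_nonneg (by linarith) (by linarith))
  have g6 : 0 ≤ v * v := mul_nonneg (by linarith) (by linarith)
  nlinarith

/-- **ND** -/
theorem thm_ND : St_ND := by
  intro u v m a Y Q X e hu hv hm hY ha he hQ h1 h2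
  have hp := ND_pn (u + v) (by omega)
  have hk := ND_up (u + v)
  have hl := ND_low v
  have hM : 1 ≤ m * a := Nat.mul_le_mul hm (by omega : 1 ≤ a)
  have hYl : (3 : ℤ) + (v + 1) ^ 2 ≤ 4 * Y := by
    have : (cf 2 v : ℤ) ≤ Y := by exact_mod_cast hY
    linarith
  push_cast at hp hk
  have hu' : (2 : ℤ) ≤ u := by exact_mod_cast hu
  have hv' : (1 : ℤ) ≤ v := by exact_mod_cast hv
  have hQ3 : u + 3 ≤ Q := by
    have := cf_ge (2 * (m * a)) u
    omega
  have hQ3' : (u : ℤ) + 3 ≤ Q := by exact_mod_cast hQ3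
  have h2' : Q * Y ≤ X := by
    refine le_trans ?_ h2
    exact Nat.mul_le_mul_right Y (Nat.le_mul_of_pos_left _ (by omega))
  rcases le_or_gt (2 * (u : ℤ)) (v * v - 2 * v + 4) with hc | hc
  · left
    have : (pn (u + v) : ℤ) ≤ X :=
      ND_prod u v Y Q X _ (by linarith) (by linarith) hYl hQ3' (by exact_mod_cast h2') hp hc
    exact_mod_cast this
  · obtain ⟨d, rfl⟩ : ∃ d, a = Y + d := ⟨a - Y, by omega⟩
    obtain ⟨j, hj⟩ : ∃ j, j = jh 1 (u + v) - 1 := ⟨_, rfl⟩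
    have hj2 : 2 * j + 1 ≤ u + v := by
      rw [hj]
      unfold jh
      omega
    rw [← hj, Nat.add_sub_cancel_left] at h1
    have hj' : (2 : ℤ) * j ≤ u + v - 1 := by
      have : (2 : ℤ) * j + 1 ≤ u + v := by exact_mod_cast hj2
      linarith
    have h3 := ND_cf (m * (Y + d)) u hM
    have hQ' : (cf (2 * (m * (Y + d))) u : ℤ) + e ≤ Q := by exact_mod_cast hQ
    have h1' : ((m * (Y + d) : ℕ) : ℤ) * Q ≤ X + j * d := by exact_mod_cast h1
    have hMa : (Y : ℤ) + d ≤ ((m * (Y + d) : ℕ) : ℤ) := by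
      have : Y + d ≤ m * (Y + d) := Nat.le_mul_of_pos_left _ (by omega)
      exact_mod_cast this
    generalize cf (2 * (m * (Y + d))) u = c at h3 hQ'
    generalize m * (Y + d) = M at h3 h1' hMa ⊢
    rcases le_or_gt (((v : ℤ) + 1) * (2 * u + v + 1)) (Y * (4 + 2 * u) + d * (6 - 2 * v)) with hG | hG
    · right
      have : (cf 2 (u + v) : ℤ) + M * e ≤ X + 1 :=
        ND_gain u v M Y d j c e Q X _ (by linarith) (by positivity) hMa (by positivity) hj' h3 hQ' h1' hk hG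
      exact_mod_cast this
    · left
      have hv4 : (4 : ℤ) ≤ v := by
        by_contra hcon
        have e1 : (v : ℤ) ≤ 3 := by omega
        have e2 : (v : ℤ) + 1 ≤ Y := by nlinarith
        have e3 : ((v : ℤ) + 1) * (4 + 2 * u) ≤ Y * (4 + 2 * u) :=
          mul_le_mul_of_nonneg_right e2 (by linarith)
        have e4 : (0 : ℤ) ≤ d * (6 - 2 * v) := mul_nonneg (by positivity) (by linarith)
        have e5 : (0 : ℤ) ≤ (v + 1) * (3 - v) := mul_nonneg (by linarith) (by linarith)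
        nlinarith
      have : (pn (u + v) : ℤ) ≤ X :=
        ND_big u v M Y d j Q X _ hu' hv4 hYl (by positivity) hMa hj' hQ3' h1' hp (by linarith) hG
      exact_mod_cast this

end Pool.Agent.SNG
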