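import Pool.Agent.SNG.St

/-!
# SNG, module NE: numbers, cap 2, the other alternative
-/

set_option autoImplicit false

noncomputable section

open Finset Pool.Agent.Helper64.Rho Pool.Agent.SDG Pool.Agent.SNW
open scoped Classical Pointwise

namespace Pool.Agent.SNG

/-- `4 c(v) ≥ 3 + (v + 1)²` -/
private theorem NE_low (v : ℕ) : (3 : ℤ) + (v + 1) ^ 2 ≤ 4 * cf 2 v := by
  rcases Nat.even_or_odd' v with ⟨b, rfl | rfl⟩
  · have h := thm_Nm1.2.1 2 b 0 (by norm_num) (by norm_num)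
    simp only [add_zero, mul_zero, zero_mul] at h
    have h2 : (2 : ℤ) * cf 2 (2 * b) = 2 + 2 * b * (b + 1) := by exact_mod_cast h
    push_cast
    nlinarith
  · have h := thm_Nm1.2.1 2 b 1 (by norm_num) (by norm_num)
    have h2 : (2 : ℤ) * cf 2 (2 * b + 1) = 2 + 2 * b * (b + 1) + 2 * 1 * (b + 1) := by
      exact_mod_cast h
    push_cast
    nlinarith

/-- `2 pn t ≤ 4 + t²` -/
private theorem NE_pn (t : ℕ) (ht : 1 ≤ t) : (2 : ℤ) * pn t ≤ 4 + (t : ℤ) ^ 2 := by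
  have h1 : 2 * pn t ≤ 4 + t ^ 2 := by
    unfold pn
    by_cases h4 : t = 4
    · subst h4
      norm_num
    · rw [if_neg h4]
      by_cases h6 : t = 6
      · subst h6
        norm_num
      · rw [if_neg h6]
        have h2 := thm_Nm1.2.2.1 (t - 1)
        rw [Nat.sub_add_cancel ht] at h2
        rw [h2]
        omega
  exact_mod_cast h1

/-- `4 M c(2M, n) ≥ 4 M + 2 M n + n²` -/
private theorem NE_cf (M n : ℕ) (hM : 1 ≤ M) :
    (4 : ℤ) * M + 2 * M * n + n ^ 2 ≤ 4 * M * cf (2 * M) n := by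
  have hr : n % (2 * M) ≤ 2 * M := (Nat.mod_lt _ (by omega)).le
  have hu : 2 * M * (n / (2 * M)) + n % (2 * M) = n := Nat.div_add_mod n _
  have h1 := thm_Nm1.2.1 (2 * M) (n / (2 * M)) (n % (2 * M)) (by omega) hr
  rw [hu] at h1
  generalize n / (2 * M) = b at h1 hu
  generalize n % (2 * M) = r at h1 hu hr
  have h2 : (2 : ℤ) * cf (2 * M) n = 2 + 2 * M * b * (b + 1) + 2 * r * (b + 1) := by
    exact_mod_cast h1
  have h3 : (2 : ℤ) * M * b + r = n := by exact_mod_cast hu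
  have hr' : (r : ℤ) ≤ 2 * M := by exact_mod_cast hr
  have hr0 : (0 : ℤ) ≤ r := Int.natCast_nonneg r
  have h4 : (4 : ℤ) * M * cf (2 * M) n = 2 * M * (2 + 2 * M * b * (b + 1) + 2 * r * (b + 1)) := by
    rw [← h2]
    ring
  rw [h4, ← h3]
  nlinarith [mul_nonneg hr0 (sub_nonneg.2 hr')]

/-- **NE** -/
theorem thm_NE : St_NE := by
  intro u v m a Y Q X hu hv hm hY ha hQ h1 h2
  have hp := NE_pn (u + v) (by omega)
  have hl := NE_low v
  have hM : 1 ≤ m * a := Nat.mul_le_mul hm (by omega : 1 ≤ a)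
  have hYl : (3 : ℤ) + (v + 1) ^ 2 ≤ 4 * Y := by
    have : (cf 2 v : ℤ) ≤ Y := by exact_mod_cast hY
    linarith
  push_cast at hp
  have hu' : (2 : ℤ) ≤ u := by exact_mod_cast hu
  have hv' : (1 : ℤ) ≤ v := by exact_mod_cast hv
  have hY0 : (0 : ℤ) ≤ Y := Int.natCast_nonneg Y
  suffices h : (2 : ℤ) * pn (u + v) ≤ 2 * X by
    have : (pn (u + v) : ℤ) ≤ X := by linarith
    exact_mod_cast this
  refine hp.trans ?_
  rcases Nat.lt_or_ge (v * v + 2) u with hc | hc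
  · -- the sum
    have hc' : (v : ℤ) * v + 3 ≤ u := by exact_mod_cast hc
    obtain ⟨d, rfl⟩ : ∃ d, a = Y + d := ⟨a - Y, by omega⟩
    have hd : (1 : ℤ) ≤ d := by exact_mod_cast (by omega : 1 ≤ d)
    obtain ⟨j, hj⟩ : ∃ j, j = jh 1 (u + v) - 1 := ⟨_, rfl⟩
    have hj2 : 2 * j + 1 ≤ u + v := by
      rw [hj]
      unfold jh
      omega
    rw [← hj, Nat.add_sub_cancel_left] at h1
    have hj' : (2 : ℤ) * j + 1 ≤ u + v := by exact_mod_cast hj2
    obtain ⟨n, rfl⟩ : ∃ n, u = n + 1 := ⟨u - 1, by omega⟩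
    rw [Nat.add_sub_cancel] at hQ
    have h3 := NE_cf (m * (Y + d)) n hM
    have hQ' : (2 : ℤ) * cf (2 * (m * (Y + d))) n ≤ Q := by exact_mod_cast hQ
    have h1' : ((m * (Y + d) : ℕ) : ℤ) * Q ≤ X + j * d := by exact_mod_cast h1
    have hMa : (Y : ℤ) + d ≤ ((m * (Y + d) : ℕ) : ℤ) := by
      have : Y + d ≤ m * (Y + d) := Nat.le_mul_of_pos_left _ (by omega)
      exact_mod_cast this
    generalize cf (2 * (m * (Y + d))) n = c at h3 hQ'
    generalize m * (Y + d) = M at h3 h1' hMa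
    have hM0 : (0 : ℤ) ≤ M := Int.natCast_nonneg M
    have h5 : (M : ℤ) * (2 * c) ≤ M * Q := mul_le_mul_of_nonneg_left hQ' hM0
    push_cast at hc' hj' hu' ⊢
    have hn0 : (1 : ℤ) ≤ n := by linarith
    -- `2 X ≥ 4 M + 2 M n + n² - 2 j d`
    have h6 : (4 : ℤ) * M + 2 * M * n + n ^ 2 ≤ 2 * X + 2 * j * d := by nlinarith
    have h7 : (2 : ℤ) * j * d ≤ (n + v) * d := by
      have : (2 : ℤ) * j ≤ n + v := by linarith
      exact mul_le_mul_of_nonneg_right this (by linarith)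
    have h8 : ((Y : ℤ) + d) * (4 + 2 * n) ≤ M * (4 + 2 * n) :=
      mul_le_mul_of_nonneg_right hMa (by linarith)
    -- `2 X ≥ (Y + d)(4 + 2 n) + n² - (n + v) d`
    have h9 : ((Y : ℤ) + d) * (4 + 2 * n) + n ^ 2 - (n + v) * d ≤ 2 * X := by nlinarith
    have hvv : (v : ℤ) ≤ v * v := by nlinarith
    have h10 : (1 : ℤ) * (4 + n - v) ≤ d * (4 + n - v) :=
      mul_le_mul_of_nonneg_right hd (by linarith)
    have h11 : (3 + ((v : ℤ) + 1) ^ 2) * (2 + n) ≤ 4 * Y * (2 + n) :=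
      mul_le_mul_of_nonneg_right hYl (by linarith)
    have h12 : (0 : ℤ) ≤ (((v : ℤ) - 1) ^ 2) * n := by positivity
    nlinarith
  · -- the product
    have hc' : (u : ℤ) ≤ v * v + 2 := by exact_mod_cast hc
    have h3 : 2 * u ≤ Q := by
      have := thm_Nm1.2.2.2.2.2 (2 * (m * a)) (u - 1)
      omega
    have h4 : 2 * u * Y ≤ X := by
      refine le_trans ?_ h2
      refine Nat.mul_le_mul_right Y ?_
      refine h3.trans ?_
      exact Nat.le_mul_of_pos_left _ (by omega)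
    have h4' : (2 : ℤ) * u * Y ≤ X := by exact_mod_cast h4
    have h5 : (u : ℤ) * (3 + (v + 1) ^ 2) ≤ u * (4 * Y) :=
      mul_le_mul_of_nonneg_left hYl (by linarith)
    have h6 : (0 : ℤ) ≤ ((u : ℤ) - 1) * (v * v + 2 - u) :=
      mul_nonneg (by linarith) (by linarith)
    nlinarith

end Pool.Agent.SNG
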