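import Pool.Agent.SNG.St

/-!
# SNG: module NF (numbers: the exceptional case of NC with a pair)
-/

set_option autoImplicit false

noncomputable section

open Finset Pool.Agent.Helper64.Rho Pool.Agent.SDG Pool.Agent.SNW
open scoped Classical Pointwise

namespace Pool.Agent.SNG

/-- the closed form over the integers -/
private theorem NF_cf (g n s t : ℕ) (hg : 1 ≤ g) (hs : s ≤ g) (ht : t = g * n + s) :
    (2 : ℤ) * cf g t = 2 + g * n * (n + 1) + 2 * s * (n + 1) := by
  subst ht
  exact_mod_cast thm_Nm1.2.1 g n s hg hs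

/-- the first inequality in the integers -/
private theorem NF_z1 {a q Q X J c : ℤ} (ha : 0 ≤ a) (hq : q ≤ 2 * Q)
    (h1 : a * Q ≤ X + J * c) : a * q ≤ 2 * X + 2 * (J * c) := by
  nlinarith

/-- the second inequality in the integers -/
private theorem NF_z2 {a q q2 Q Q2 X J c : ℤ} (ha : 1 ≤ a) (hq : q ≤ 2 * Q) (hq2 : q2 ≤ 2 * Q2)
    (h1 : a * Q ≤ X + J * c + (Q - Q2)) : (a - 1) * q + q2 ≤ 2 * X + 2 * (J * c) := by
  nlinarith

theorem thm_NF : St_NF := by
  intro u v a Q Q2 X hu hv hv2 ha hQ hQ2 hQQ h1 h2 _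
  right
  have hr : u % (2 * a) < 2 * a := Nat.mod_lt _ (by omega)
  have hu1 : u = 2 * a * (u / (2 * a)) + u % (2 * a) := (Nat.div_add_mod u (2 * a)).symm
  generalize u / (2 * a) = p at hu1
  generalize u % (2 * a) = r at hu1 hr
  obtain ⟨m, hm⟩ : ∃ m, m = a * p := ⟨_, rfl⟩
  have hu2 : u = 2 * m + r := by rw [hu1, hm]; ring
  have hmz : (m : ℤ) = a * p := by exact_mod_cast hm
  have hq : (2 + 2 * a * p * (p + 1) + 2 * r * (p + 1) : ℤ) ≤ 2 * Q := by
    have e := NF_cf (2 * a) p r u (by omega) hr.le hu1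
    have e2 : (cf (2 * a) u : ℤ) ≤ Q := by exact_mod_cast hQ
    push_cast at e
    linarith
  have hp0 : p = 0 ∨ 1 ≤ p := by omega
  obtain ⟨k, hk⟩ : ∃ k, r = 2 * k ∨ r = 2 * k + 1 := ⟨r / 2, by omega⟩
  have haz : (v : ℤ) + 2 ≤ a := by exact_mod_cast ha
  have hQQz : ((Q - Q2 : ℕ) : ℤ) = Q - Q2 := by
    rw [Nat.cast_sub hQQ]
  have ha1 : ((a - (v + 1) : ℕ) : ℤ) = a - (v + 1) := by
    rw [Nat.cast_sub (by omega)]
    push_cast
    ring
  have ha2 : ((a - (v + 2) : ℕ) : ℤ) = a - (v + 2) := by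
    rw [Nat.cast_sub (by omega)]
    push_cast
    ring
  obtain ⟨J, hJ⟩ : ∃ J, J = jh 1 (u + v) - 1 := ⟨_, rfl⟩
  rw [← hJ] at h1 h2
  have h1z : (a : ℤ) * Q ≤ X + J * (a - (v + 1)) := by
    rw [← ha1]
    exact_mod_cast h1
  have h2z : (a : ℤ) * Q ≤ X + J * (a - (v + 2)) + (Q - Q2) := by
    rw [← ha2, ← hQQz]
    exact_mod_cast h2
  have hX1 := NF_z1 (by linarith [Int.natCast_nonneg v]) hq h1z
  have hv' : v = 1 ∨ v = 2 := by omega
  have hgoal : ∀ c : ℤ, (2 : ℤ) * cf 2 (u + v) = c → c + 2 * a ≤ 2 * X + 2 →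
      cf 2 (u + v) + a ≤ X + 1 := by
    intro c h3 h4
    have h5 : (2 : ℤ) * (cf 2 (u + v) + a) ≤ 2 * (X + 1) := by linarith
    have h6 : ((cf 2 (u + v) + a : ℕ) : ℤ) ≤ ((X + 1 : ℕ) : ℤ) := by
      push_cast
      linarith
    exact_mod_cast h6
  have hX2 : ∀ q2 : ℤ, 2 * (cf (2 * a) (u - 2) : ℤ) = q2 →
      ((a : ℤ) - 1) * (2 + 2 * a * p * (p + 1) + 2 * r * (p + 1)) + q2 ≤
        2 * X + 2 * (J * (a - (v + 2))) := by
    intro q2 h3
    have e2 : (cf (2 * a) (u - 2) : ℤ) ≤ Q2 := by exact_mod_cast hQ2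
    exact NF_z2 (by linarith [Int.natCast_nonneg v]) hq (by linarith) h2z
  have hk3 : k + 1 ≤ a := by omega
  have hk3z : (k : ℤ) + 1 ≤ a := by exact_mod_cast hk3
  have hk0z : (0 : ℤ) ≤ k := Int.natCast_nonneg k
  rcases hv' with rfl | rfl
  · rcases hk with rfl | rfl
    · have hJ' : J = m + k := by
        rw [hJ, jh]
        omega
      have hc := NF_cf 2 (m + k) 1 (u + 1) (by norm_num) (by norm_num) (by omega)
      refine hgoal _ hc ?_
      rcases Nat.eq_zero_or_pos k with rfl | hk0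
      · obtain ⟨p', rfl⟩ : ∃ p', p = p' + 1 := by
          rcases hp0 with rfl | h
          · omega
          · exact ⟨p - 1, by omega⟩
        obtain ⟨s, hs⟩ : ∃ s, s + 2 = 2 * a := ⟨2 * a - 2, by omega⟩
        have hsz : (s : ℤ) = 2 * a - 2 := by
          have : (s : ℤ) + 2 = 2 * a := by exact_mod_cast hs
          linarith
        have h4 := hX2 _ (NF_cf (2 * a) p' s (u - 2) (by omega) (by omega) (by
          rw [hu1, mul_add]
          omega))
        rw [hJ'] at h4
        push_cast at h4 hmz haz ⊢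
        rw [hmz] at h4 ⊢
        rw [hsz] at h4
        have h5 : (0 : ℤ) ≤ (a - 3) * p' :=
          mul_nonneg (by linarith) (Int.natCast_nonneg p')
        nlinarith
      · have hk1 : (1 : ℤ) ≤ k := by exact_mod_cast hk0
        rw [hJ'] at hX1
        push_cast at hX1 haz ⊢
        rw [hmz] at hX1 ⊢
        nlinarith [mul_nonneg (sub_nonneg.mpr hk1) (sub_nonneg.mpr hk3z)]
    · have hJ' : J = m + k := by
        rw [hJ, jh]
        omega
      have hc := NF_cf 2 (m + k + 1) 0 (u + 1) (by norm_num) (by norm_num) (by omega)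
      refine hgoal _ hc ?_
      rw [hJ'] at hX1
      push_cast at hX1 haz ⊢
      rw [hmz] at hX1 ⊢
      nlinarith [mul_nonneg hk0z (sub_nonneg.mpr hk3z)]
  · rcases hk with rfl | rfl
    · have hJ' : J = m + k := by
        rw [hJ, jh]
        omega
      have hc := NF_cf 2 (m + k + 1) 0 (u + 2) (by norm_num) (by norm_num) (by omega)
      refine hgoal _ hc ?_
      rcases Nat.eq_zero_or_pos k with rfl | hk0
      · obtain ⟨p', rfl⟩ : ∃ p', p = p' + 1 := by
          rcases hp0 with rfl | h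
          · omega
          · exact ⟨p - 1, by omega⟩
        obtain ⟨s, hs⟩ : ∃ s, s + 2 = 2 * a := ⟨2 * a - 2, by omega⟩
        have hsz : (s : ℤ) = 2 * a - 2 := by
          have : (s : ℤ) + 2 = 2 * a := by exact_mod_cast hs
          linarith
        have h4 := hX2 _ (NF_cf (2 * a) p' s (u - 2) (by omega) (by omega) (by
          rw [hu1, mul_add]
          omega))
        rw [hJ'] at h4
        push_cast at h4 hmz haz ⊢
        rw [hmz] at h4 ⊢
        rw [hsz] at h4
        have h5 : (0 : ℤ) ≤ (a - 4) * p' :=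
          mul_nonneg (by linarith) (Int.natCast_nonneg p')
        have h6 : (0 : ℤ) ≤ p' := Int.natCast_nonneg p'
        nlinarith
      · have hk1 : (1 : ℤ) ≤ k := by exact_mod_cast hk0
        rw [hJ'] at hX1
        push_cast at hX1 haz ⊢
        rw [hmz] at hX1 ⊢
        nlinarith [mul_nonneg (sub_nonneg.mpr hk1) (sub_nonneg.mpr hk3z)]
    · have hJ' : J = m + k + 1 := by
        rw [hJ, jh]
        omega
      have hc := NF_cf 2 (m + k + 1) 1 (u + 2) (by norm_num) (by norm_num) (by omega)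
      refine hgoal _ hc ?_
      rcases Nat.eq_zero_or_pos k with rfl | hk0
      · obtain ⟨p', rfl⟩ : ∃ p', p = p' + 1 := by
          rcases hp0 with rfl | h
          · omega
          · exact ⟨p - 1, by omega⟩
        obtain ⟨s, hs⟩ : ∃ s, s + 1 = 2 * a := ⟨2 * a - 1, by omega⟩
        have hsz : (s : ℤ) = 2 * a - 1 := by
          have : (s : ℤ) + 1 = 2 * a := by exact_mod_cast hs
          linarith
        have h4 := hX2 _ (NF_cf (2 * a) p' s (u - 2) (by omega) (by omega) (by
          rw [hu1, mul_add]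
          omega))
        rw [hJ'] at h4
        push_cast at h4 hmz haz ⊢
        rw [hmz] at h4 ⊢
        rw [hsz] at h4
        have h5 : (0 : ℤ) ≤ (a - 4) * p' :=
          mul_nonneg (by linarith) (Int.natCast_nonneg p')
        have h6 : (0 : ℤ) ≤ p' := Int.natCast_nonneg p'
        nlinarith
      · have hk1 : (1 : ℤ) ≤ k := by exact_mod_cast hk0
        rcases Nat.lt_or_ge (k + 1) a with hk4 | hk4
        · have hk4z : (k : ℤ) + 2 ≤ a := by exact_mod_cast hk4
          rw [hJ'] at hX1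
          push_cast at hX1 haz ⊢
          rw [hmz] at hX1 ⊢
          nlinarith [mul_nonneg (sub_nonneg.mpr hk1) (sub_nonneg.mpr hk4z)]
        · have hka : (k : ℤ) = a - 1 := by
            have h7 : a = k + 1 := by omega
            have h8 : (a : ℤ) = k + 1 := by exact_mod_cast h7
            linarith
          obtain ⟨s, hs⟩ : ∃ s, s + 3 = 2 * a := ⟨2 * a - 3, by omega⟩
          have hsz : (s : ℤ) = 2 * a - 3 := by
            have : (s : ℤ) + 3 = 2 * a := by exact_mod_cast hs
            linarith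
          have h4 := hX2 _ (NF_cf (2 * a) p s (u - 2) (by omega) (by omega) (by
            rw [hu1]
            omega))
          rw [hJ'] at h4
          push_cast at h4 haz ⊢
          rw [hmz, hka] at h4 ⊢
          rw [hsz] at h4
          have h5 : (0 : ℤ) ≤ (a - 4) * p :=
            mul_nonneg (by linarith) (Int.natCast_nonneg p)
          have h6 : (0 : ℤ) ≤ p := Int.natCast_nonneg p
          nlinarith

end Pool.Agent.SNG
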