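import Pool.Agent.SNG.St

/-!
# SNG, module NG (helper44)
-/

set_option autoImplicit false

open Finset Pool.Agent.Helper64.Rho Pool.Agent.SDG Pool.Agent.SNW
open scoped Classical Pointwise

namespace Pool.Agent.SNG

private theorem NG_cf (t : ℕ) : cf 2 t = 1 + (t + 1) ^ 2 / 4 := by
  have := thm_Nm1.2.2.1 t
  omega

theorem thm_NG : St_NG := by
  intro u v hu hv hv2
  have hv' : v = 1 ∨ v = 2 := by omega
  unfold pn
  rcases hv' with rfl | rfl
  · by_cases h4 : u + 1 = 4
    · have : u = 3 := by omega
      subst this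
      rw [if_pos h4, NG_cf]
      norm_num
    · rw [if_neg h4]
      by_cases h6 : u + 1 = 6
      · have : u = 5 := by omega
        subst this
        rw [if_pos h6, NG_cf]
        norm_num
      · rw [if_neg h6, Nat.add_sub_cancel]
  · by_cases h4 : u + 2 = 4
    · have : u = 2 := by omega
      subst this
      rw [if_pos h4, NG_cf]
      norm_num
    · rw [if_neg h4]
      by_cases h6 : u + 2 = 6
      · have : u = 4 := by omega
        subst this
        rw [if_pos h6, NG_cf]
        norm_num
      · rw [if_neg h6]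
        have e : u + 2 - 1 = u + 1 := by omega
        rw [e, NG_cf, NG_cf]
        rcases Nat.even_or_odd' u with ⟨b, rfl | rfl⟩
        · have f1 : (2 * b + 1 + 1) ^ 2 = 4 * (b * b + 2 * b + 1) := by ring
          have f2 : 4 * (b * b + 2 * b + 1) / 4 = b * b + 2 * b + 1 := by omega
          have f3 : (2 * b + 1) ^ 2 = 4 * (b * b + b) + 1 := by ring
          have f4 : (4 * (b * b + b) + 1) / 4 = b * b + b := by omega
          rw [f1, f2, f3, f4]
          obtain ⟨c, rfl⟩ : ∃ c, b = c + 2 := ⟨b - 2, by omega⟩
          nlinarith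
        · have f1 : (2 * b + 1 + 1 + 1) ^ 2 = 4 * (b * b + 3 * b + 2) + 1 := by ring
          have f2 : (4 * (b * b + 3 * b + 2) + 1) / 4 = b * b + 3 * b + 2 := by omega
          have f3 : (2 * b + 1 + 1) ^ 2 = 4 * (b * b + 2 * b + 1) := by ring
          have f4 : 4 * (b * b + 2 * b + 1) / 4 = b * b + 2 * b + 1 := by omega
          rw [f1, f2, f3, f4]
          nlinarith

end Pool.Agent.SNG
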