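import Pool.Agent.SNG.St

/-!
# SNG NH: the near-full alternative of the quotient (numbers)
-/

set_option autoImplicit false

namespace Pool.Agent.SNG

private theorem NH_up (h t a : ℕ) (hh : 1 ≤ h) (ha : 2 * h * a + 1 ≤ t) : a + 1 ≤ jh h t := by
  unfold jh
  rw [Nat.le_div_iff_mul_le (by omega)]
  have h1 : (a + 1) * (2 * h) = 2 * h * a + 2 * h := by ring
  omega

private theorem NH_dn (h t a : ℕ) (hh : 1 ≤ h) (ha : a + 1 ≤ jh h t) : 2 * h * a + 1 ≤ t := by
  unfold jh at ha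
  rw [Nat.le_div_iff_mul_le (by omega)] at ha
  have h1 : (a + 1) * (2 * h) = 2 * h * a + 2 * h := by ring
  omega

theorem thm_NH : St_NH := by
  intro h u v M Y Q X n hh hv hM hY hQ hn hX
  have hhM : 1 ≤ h * M := Nat.mul_pos hh (by omega)
  generalize hJ' : jh (h * M) u = J' at hn
  generalize hJ : jh h (u + v) = J at hX ⊢
  have h2 : 2 ≤ J' := by
    by_contra hc
    have h3 : J' * (J' - 1) = 0 := by
      have h4 : J' = 0 ∨ J' = 1 := by omega
      rcases h4 with h4 | h4 <;> simp [h4]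
    omega
  obtain ⟨x, rfl⟩ : ∃ x, J' = x + 1 := ⟨J' - 1, by omega⟩
  have hx : 1 ≤ x := by omega
  have h5 : 2 * (h * M) * x + 1 ≤ u := NH_dn (h * M) u x hhM (by omega)
  have h6 : M * x + 1 ≤ J := by
    rw [← hJ]
    apply NH_up h (u + v) (M * x) hh
    have h7 : 2 * h * (M * x) = 2 * (h * M) * x := by ring
    omega
  obtain ⟨j, rfl⟩ : ∃ j, J = j + 1 := ⟨J - 1, by omega⟩
  have h8 : x + 1 - 1 = x := by omega
  have h9 : j + 1 - 1 = j := by omega
  rw [h8] at hn
  rw [h9] at hX ⊢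
  have h10 : M * x ≤ j := by omega
  have h11 : M * n ≤ M * Q + M * x * (x + 1) := by
    calc M * n ≤ M * (Q + (x + 1) * x) := Nat.mul_le_mul_left M hn
      _ = M * Q + M * x * (x + 1) := by ring
  have h12 : M * x * (x + 1) ≤ j * (x + 1) := Nat.mul_le_mul_right _ h10
  have h13 : j * (M - Y) ≤ j * (M - 2) := Nat.mul_le_mul_left j (by omega)
  have h14 : (M - 2) + (x + 1) ≤ j + 1 := by
    obtain ⟨m, rfl⟩ : ∃ m, M = m + 3 := ⟨M - 3, by omega⟩
    obtain ⟨y, rfl⟩ : ∃ y, x = y + 1 := ⟨x - 1, by omega⟩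
    have h15 : (m + 3) * (y + 1) = m * y + m + 3 * y + 3 := by ring
    have h16 : m + 3 - 2 = m + 1 := by omega
    rw [h16]
    have h17 : 0 ≤ m * y := Nat.zero_le _
    omega
  have h18 : j * (M - 2) + j * (x + 1) ≤ j * (j + 1) := by
    rw [← Nat.mul_add]
    exact Nat.mul_le_mul_left j h14
  have h19 : (j + 1) * j = j * (j + 1) := by ring
  omega
end Pool.Agent.SNG
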