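import Pool.Agent.SNG.M1a
import Pool.Agent.SNG.NA
import Pool.Agent.SNG.NB
import Pool.Agent.SNG.NC
import Pool.Agent.SNG.ND
import Pool.Agent.SNG.NE
import Pool.Agent.SNG.NF
import Pool.Agent.SNG.NG
import Pool.Agent.SNG.NH
import Pool.Agent.SNG.B0
import Pool.Agent.SNG.B1
import Pool.Agent.SNG.B2
import Pool.Agent.SSE.Main

/-!
# SNG: assembly (helper22)
-/

set_option autoImplicit false

noncomputable section

open Finset Pool.Agent.Helper64.Rho Pool.Agent.SDG Pool.Agent.SNW
open scoped Classical Pointwise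

namespace Pool.Agent.SNG

/-- the gain for cap `2 h`, `h ≥ 3`, in all noncyclic groups -/
theorem all_TG (h : ℕ) (hh : 3 ≤ h) (t : ℕ) : TG h t :=
  thm_TG thm_NA thm_NB thm_NH thm_B0 thm_B1 thm_B2 t h hh

/-- **M1** for a noncyclic group `G`, from the lower bound `PAG G` and the small case `A1P G` -/
theorem all_M1P (G : Type) [AddCommGroup G] [Finite G] (hPA : PAG G) (hA1 : A1P G)
    (hcyc : ¬ IsAddCyclic G) : M1P G (l0 G - 1) :=
  thm_M1P thm_NC thm_ND thm_NE thm_NF thm_NG thm_NH all_TG SSE.all_PFE G hPA hA1 hcyc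

end Pool.Agent.SNG
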