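import Pool.Agent.SNG.Al

/-!
# SNG, module TGa (helper22): the gain for cap `2 h`, `h ≥ 3`, in noncyclic groups
-/

set_option autoImplicit false

noncomputable section

open Finset Pool.Agent.Helper64.Rho Pool.Agent.SDG Pool.Agent.SNW
open scoped Classical Pointwise

namespace Pool.Agent.SNG

/-- a noncyclic quotient needs three members outside (no drop) -/
theorem TG_three {G H ι : Type} [AddCommGroup G] [Finite G] [AddCommGroup H] [Finite H]
    {s : Finset ι} {f : ι → G} {R : AddSubgroup G} {π : G →+ H} (hπs : Function.Surjective π)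
    (hπk : ∀ x, π x = 0 ↔ x ∈ R) (hge : ∀ i ∈ s, gen (s.erase i) f = ⊤)
    (hHc : ¬ IsAddCyclic H) {i : ι} (hi : i ∈ s.filter fun i => f i ∉ R) :
    3 ≤ (s.filter fun i => f i ∉ R).card := by
  have his := (mem_filter.1 hi).1
  by_contra hcon
  apply hHc
  have h1 := q_gen (s.erase i) f hπs hπk (hge i his)
  refine one_member_cyc _ _ ?_ h1
  have h2 : ((s.erase i).filter fun k => f k ∉ R) = (s.filter fun k => f k ∉ R).erase i := by
    ext k
    simp only [mem_filter, mem_erase]
    tauto
  rw [h2, card_erase_of_mem hi]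
  omega

/-- `l0 G ≤ |P|` for a cyclic quotient -/
theorem TG_l0c {G H : Type} [AddCommGroup G] [Finite G] [AddCommGroup H] [Finite H]
    {P : AddSubgroup G} {π : G →+ H} (hπs : Function.Surjective π)
    (hc : Nat.card G = Nat.card P * Nat.card H) (hHc : IsAddCyclic H) : l0 G ≤ Nat.card P := by
  apply l0_le
  rw [hc]
  refine Nat.mul_le_mul_left _ ?_
  rw [← IsAddCyclic.exponent_eq_card (α := H)]
  exact Nat.le_of_dvd (exp_pos G) (AddMonoidHom.exponent_dvd hπs)

/-- `l0 G ≤ |P| l0 (G / P)` -/
theorem TG_l0n {G H : Type} [AddCommGroup G] [Finite G] [AddCommGroup H] [Finite H]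
    {P : AddSubgroup G} {π : G →+ H} (hπs : Function.Surjective π)
    (hc : Nat.card G = Nat.card P * Nat.card H) : l0 G ≤ Nat.card P * l0 H := by
  apply l0_le
  rw [hc, ← l0_mul H, mul_assoc]
  refine Nat.mul_le_mul_left _ (Nat.mul_le_mul_left _ ?_)
  exact Nat.le_of_dvd (exp_pos G) (AddMonoidHom.exponent_dvd hπs)

/-- `2 ≤ l0 H` for noncyclic `H` -/
theorem TG_l0two (H : Type) [AddCommGroup H] [Finite H] (hHc : ¬ IsAddCyclic H) : 2 ≤ l0 H := by
  by_contra hcon
  have h1 := l0_mul H
  have h2 : 0 < Nat.card H := Nat.card_pos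
  have h3 : l0 H = 1 := by
    rcases Nat.eq_zero_or_pos (l0 H) with h3 | h3
    · rw [h3, zero_mul] at h1
      omega
    · omega
  rw [h3, one_mul] at h1
  exact hHc (IsAddCyclic.iff_exponent_eq_card.2 h1)

theorem thm_TG (hNA : St_NA) (hNB : St_NB) (hNH : St_NH) (hB0 : St_B0) (hB1 : St_B1)
    (hB2 : St_B2) (t : ℕ) : ∀ h, 3 ≤ h → TG h t := by
  induction t using Nat.strong_induction_on with
  | _ t ih =>
  intro h hh G ι _ _ s f hs h0 hcap hA hg hcyc
  by_contra hcon
  push Not at hcon
  obtain ⟨hc1, hc2, hc3⟩ := hcon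
  have hbt : (⊥ : AddSubgroup G) ≠ ⊤ := by
    intro hbt
    apply hcyc
    apply cyc_of_le (0 : G)
    rw [← hbt]
    exact bot_le
  have ht0 : 1 ≤ t := by
    by_contra hcon
    exact hcyc (one_member_cyc s f (by omega) hg)
  have hcard : ∀ i ∈ s, (s.erase i).card = t - 1 := by
    intro i hi
    rw [card_erase_of_mem hi, hs]
  have hAe : ∀ i, Aper (FS (s.erase i) f) := fun i =>
    (all_Ba1 G ι f).2.1 s (s.erase i) (erase_subset _ _) hA
  have h0e : ∀ i, ∀ k ∈ s.erase i, f k ≠ 0 := fun i k hk => h0 k (erase_subset _ _ hk)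
  have hce : ∀ i, Cap (2 * h) (s.erase i) f := fun i x =>
    (card_le_card (filter_subset_filter _ (erase_subset _ _))).trans (hcap x)
  have hge : ∀ i ∈ s, gen (s.erase i) f = ⊤ := by
    intro i hi
    rw [← hg]
    apply (all_Ba1 G ι f).2.2.2.2.2.1 s i hi
    by_contra hne
    have h3 := (all_Ba1 G ι f).2.2.2.1 s i hi hne
    have h4 := (all_main (t - 1)).2 h (by omega) G ι (s.erase i) f (hcard i hi) (h0e i) (hce i)
      (hAe i)
    omega
  have hs2 : 2 ≤ s.card := (two_le_card hbt hge hg).trans (card_le_card (filter_subset _ _))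
  have ht3 : 3 ≤ t := by
    by_contra hcon
    obtain ⟨i, hi⟩ : s.Nonempty := by
      rw [← card_pos]
      omega
    exact hcyc (one_member_cyc (s.erase i) f (by rw [hcard i hi]; omega) (hge i hi))
  have hmono : ∀ i, (FS (s.erase i) f).card ≤ (FS s f).card := fun i =>
    card_le_card (FS_mono (erase_subset _ _) f)
  have hlow : ∀ i ∈ s, 2 * cf (2 * h) (t - 2) ≤ (FS (s.erase i) f).card ∨
      cf (2 * h) (t - 1) + l0 G ≤ (FS (s.erase i) f).card := by
    intro i hi
    rcases ih (t - 1) (by omega) h hh G ι (s.erase i) f (hcard i hi) (h0e i) (hce i) (hAe i)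
      (hge i hi) hcyc with h5 | h5 | h5
    · left
      have h6 : t - 1 - 1 = t - 2 := by omega
      rwa [h6] at h5
    · right
      exact h5
    · exfalso
      have h6 := hmono i
      have h7 := Al_jh_mono h (t - 1) t (Nat.sub_le _ _)
      have h8 : jh h (t - 1) * (jh h (t - 1) - 1) ≤ jh h t * (jh h t - 1) :=
        Nat.mul_le_mul h7 (Nat.sub_le_sub_right h7 1)
      omega
  have hl2 := TG_l0two G hcyc
  have hstep := Al_step h t (by omega) ht0
  have hTT : ∀ h' : ℕ, 2 ≤ h' → ∀ u, TT h' u := fun h' hh' u => (all_main u).2 h' hh'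
  rcases Nat.lt_or_ge (2 * cf (2 * h) (t - 2)) (cf (2 * h) (t - 1) + l0 G) with hβ | hα
  · -- case β
    have hlow' : ∀ i ∈ s, 2 * cf (2 * h) (t - 2) ≤ (FS (s.erase i) f).card := by
      intro i hi
      rcases hlow i hi with h5 | h5
      · exact h5
      · omega
    obtain ⟨j, hj⟩ : ∃ j, 2 * cf (2 * h) (t - 2) + j = (FS s f).card := by
      obtain ⟨i, hi⟩ : s.Nonempty := by
        rw [← card_pos]
        omega
      have h5 := hlow' i hi
      have h6 := hmono i
      exact ⟨(FS s f).card - 2 * cf (2 * h) (t - 2), by omega⟩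
    have hlam : ∀ i ∈ s, lam (FS s f) (f i) ≤ j := by
      intro i hi
      have h3 := (all_Ba1 G ι f).2.2.1 s i hi
      have h4 := hlow' i hi
      omega
    obtain ⟨R, hC, hR⟩ := max_cand h0 hA hbt
    obtain ⟨i, hi⟩ : (s.filter fun i => f i ∉ R).Nonempty := by
      rw [← card_pos]
      have := two_le_card hC.1 hge hg
      omega
    obtain ⟨his, hiR⟩ := mem_filter.1 hi
    have hfull := hR i his hiR
    by_cases hbot : R = ⊥
    · -- `T + ⟨f i⟩` is everything
      subst hbot
      have h2 : (s.filter fun k => f k ∈ (⊥ : AddSubgroup G)) = ∅ := by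
        rw [Finset.filter_eq_empty_iff]
        intro k hk h
        exact h0 k hk ((AddSubgroup.mem_bot).1 h)
      rw [h2] at hfull
      have hLs := gen_self s f (insert i ∅) (insert_subset his (empty_subset _))
      obtain ⟨h3', h3⟩ := all_Pc G ι s f (gen (insert i ∅) f) j h0 hA hLs
        (fun k hk _ => hlam k hk)
      have h4 : (st (FS s f) (gen (insert i ∅) f)).card = Nat.card G := by
        have := Fintype.ofFinite G
        rw [Nat.card_eq_fintype_card, ← Finset.card_univ]
        congr 1
        rw [Finset.eq_univ_iff_forall]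
        intro g
        exact P1_mem_st.2 (hfull g)
      have hLz : gen (insert i ∅) f = AddSubgroup.zmultiples (f i) := by
        apply le_antisymm
        · unfold gen
          rw [AddSubgroup.closure_le]
          rintro _ ⟨k, hk, rfl⟩
          rw [mem_coe, mem_insert] at hk
          rcases hk with rfl | hk
          · exact AddSubgroup.mem_zmultiples _
          · exact absurd hk (notMem_empty _)
        · rw [AddSubgroup.zmultiples_le]
          exact P1_mem_gen (mem_insert_self i ∅)
      have h6 : 2 ≤ (FS (s.filter fun k => f k ∈ gen (insert i ∅) f) f).card := by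
        have h7 := (all_Sm G ι (s.filter fun k => f k ∈ gen (insert i ∅) f) f
          (fun k hk => h0 k (filter_subset _ _ hk))
          ((all_Ba1 G ι f).2.1 s _ (filter_subset _ _) hA)).1
        have h8 : 1 ≤ (s.filter fun k => f k ∈ gen (insert i ∅) f).card :=
          card_pos.2 ⟨i, mem_filter.2 ⟨his, P1_mem_gen (mem_insert_self i ∅)⟩⟩
        omega
      rw [h4, hLz] at h3 h3'
      rw [hLz] at h6
      obtain ⟨μ, hμ⟩ : ∃ μ, μ = Nat.card (AddSubgroup.zmultiples (f i)) := ⟨_, rfl⟩
      rw [← hμ] at h3 h3'
      have hμo : μ = addOrderOf (f i) := by rw [hμ, Nat.card_zmultiples]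
      obtain ⟨e, he⟩ : μ ∣ AddMonoid.exponent G := by
        rw [hμo]
        exact AddMonoid.addOrder_dvd_exponent _
      have hμ0 : 0 < μ := by
        rw [hμo]
        exact addOrderOf_pos _
      have he0 : 0 < e := by
        rcases Nat.eq_zero_or_pos e with h7 | h7
        · have := exp_pos G
          rw [he, h7, mul_zero] at this
          omega
        · exact h7
      have hG : Nat.card G = μ * (l0 G * e) := by
        rw [← l0_mul G, he]
        ring
      obtain ⟨q, hq⟩ : ∃ q, q = l0 G * e := ⟨_, rfl⟩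
      have hμ3 : 3 ≤ μ := by
        have h7 : (FS (s.filter fun k => f k ∈ AddSubgroup.zmultiples (f i)) f).card + 1 ≤ μ := by
          rw [hμ]
          have hb : AddSubgroup.zmultiples (f i) ≠ ⊥ := by
            intro hb
            have h8 : f i ∈ AddSubgroup.zmultiples (f i) := AddSubgroup.mem_zmultiples _
            rw [hb, AddSubgroup.mem_bot] at h8
            exact h0 i his h8
          exact (all_Kn G).2.2.2 _ _ ⟨0, zero_mem_FS _ _⟩ hb
            (fun x hx => FS_subset_of_mem (fun k hk => (mem_filter.1 hk).2) hx)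
            ((all_Ba1 G ι f).2.1 s _ (filter_subset _ _) hA)
        omega
      rw [hG, ← hq] at h3 h3'
      have h9 : 2 * q ≤ (FS s f).card := by
        refine Nat.le_of_mul_le_mul_left ?_ hμ0
        calc μ * (2 * q) = μ * q * 2 := by ring
          _ ≤ _ := (Nat.mul_le_mul_left _ h6).trans h3
      have h10 : μ * q ≤ (FS s f).card + j * (μ - 2) :=
        h3'.trans (Nat.add_le_add_left (Nat.mul_le_mul_left _ (by omega)) _)
      have hq2 : q = l0 G ∨ 2 * l0 G ≤ q := by
        rcases Nat.lt_or_ge e 2 with h11 | h11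
        · left
          have h12 : e = 1 := by omega
          rw [hq, h12, mul_one]
        · right
          rw [hq, mul_comm 2]
          exact Nat.mul_le_mul_left _ h11
      rcases hB0 h t (l0 G) q μ (FS s f).card j hh ht3 hl2 hμ3 (by omega) (by omega) (by omega)
        (by omega) hq2 h9 h10 with h11 | ⟨h11, h12, h13⟩
      · rw [hG, ← hq] at hc3
        omega
      · -- order `6`
        have h14 : e = 1 := by
          rw [h12, h11] at hq
          omega
        have h15 : AddMonoid.exponent G = 3 := by rw [he, h13, h14]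
        have h16 : Nat.card G = 6 := by
          rw [← l0_mul G, h11, h15]
        have h17 : 2 ∣ Nat.card G := by rw [h16]; norm_num
        have : Fact (Nat.Prime 2) := ⟨Nat.prime_two⟩
        obtain ⟨x, hx⟩ := exists_prime_addOrderOf_dvd_card' (G := G) 2 h17
        have h18 := AddMonoid.addOrder_dvd_exponent x
        rw [hx, h15] at h18
        omega
    · obtain ⟨H, _, _, π, hπs, hπk, hπc⟩ := q_exists G R
      obtain ⟨d1, d2, d3, d4, d5⟩ := Cd_data hπs hπk hC h0 hA j hlam
      obtain ⟨d6, d7⟩ := d5 hbot
      have hu := two_le_card hC.1 hge hg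
      have huv : (s.filter fun i => f i ∉ R).card + (s.filter fun i => f i ∈ R).card = t := by
        rw [← hs, add_comm]
        exact Finset.card_filter_add_card_filter_not (s := s) (fun i => f i ∈ R)
      have hsubR : (s.filter fun i => f i ∈ R) ⊆ s := filter_subset _ _
      have hAR : Aper (FS (s.filter fun i => f i ∈ R) f) := (all_Ba1 G ι f).2.1 _ _ hsubR hA
      have hYR : cf (2 * h) (s.filter fun i => f i ∈ R).card ≤
          (FS (s.filter fun i => f i ∈ R) f).card :=
        hTT h (by omega) _ G ι (s.filter fun i => f i ∈ R) f rfl (fun k hk => h0 k (hsubR hk))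
          (fun x => (card_le_card (filter_subset_filter _ hsubR)).trans (hcap x)) hAR
      have hqg : gen (s.filter fun i => f i ∉ R) (fun i => π (f i)) = ⊤ := q_gen s f hπs hπk hg
      have hqn := q_ne s f hπk
      -- the names
      obtain ⟨u, hu'⟩ : ∃ u, u = (s.filter fun i => f i ∉ R).card := ⟨_, rfl⟩
      obtain ⟨v, hv'⟩ : ∃ v, v = (s.filter fun i => f i ∈ R).card := ⟨_, rfl⟩
      obtain ⟨Y, hY'⟩ : ∃ Y, Y = (FS (s.filter fun i => f i ∈ R) f).card := ⟨_, rfl⟩
      obtain ⟨Q, hQ'⟩ : ∃ Q, Q = (FS (s.filter fun i => f i ∉ R) (fun i => π (f i))).card :=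
        ⟨_, rfl⟩
      obtain ⟨r, hr'⟩ : ∃ r, r = Nat.card R := ⟨_, rfl⟩
      have hSm := (all_Sm H ι (s.filter fun i => f i ∉ R) (fun i => π (f i)) hqn d1).1
      have hlc : IsAddCyclic H → l0 G ≤ r := fun hHc => by
        rw [hr']
        exact TG_l0c hπs hπc hHc
      rw [← hY', ← hQ', ← hr'] at d2
      rw [← hY', ← hQ'] at d3
      rw [← hv', ← hY'] at d4
      rw [← hv'] at d6
      rw [← hY', ← hr'] at d7
      rw [← hu'] at hu hSm
      rw [← hu', ← hv'] at huv
      rw [← hv', ← hY'] at hYR
      rw [← hQ'] at hSm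
      rw [← hr'] at hπc
      have e1 : u + v - 2 = t - 2 := by omega
      have e2 : u + v - 1 = t - 1 := by omega
      by_cases hHc : IsAddCyclic H
      · -- cyclic quotient
        refine hB1 h u v (l0 G) r Y Q (FS s f).card j hh hu d6 hl2 ?_ ?_ ?_ ?_ hYR d7 (hlc hHc)
          hSm d2 d3
        · rw [e1, e2]; omega
        · rw [e1]; omega
        · rw [e2]; omega
        · rw [huv]; omega
      · -- noncyclic quotient
        have hu3 : 3 ≤ u := by
          rw [hu']
          exact TG_three hπs hπk hge hHc hi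
        have hL2 := thm_Lin2 H ι (s.filter fun i => f i ∉ R) (fun i => π (f i)) hqn d1 hqg hHc
        rw [← hu', ← hQ'] at hL2
        have hYpos : 0 < Y := by omega
        have hlam' : ∀ k ∈ s.filter (fun i => f i ∉ R),
            lam (FS (s.filter fun i => f i ∉ R) (fun i => π (f i))) (π (f k)) ≤ j / Y := by
          intro k hk
          rw [Nat.le_div_iff_mul_le hYpos, hY']
          exact (q_lam s f hπk (f k)).trans (hlam k (mem_filter.1 hk).1)
        have hL'g : gen ((s.filter fun i => f i ∉ R).filter fun k =>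
            π (f k) ∈ AddSubgroup.zmultiples (π (f i))) (fun i => π (f i)) =
            AddSubgroup.zmultiples (π (f i)) := by
          refine le_antisymm (P1_gen_le _ _ _) ?_
          rw [AddSubgroup.zmultiples_le]
          exact P1_mem_gen (f := fun i => π (f i))
            (mem_filter.2 ⟨hi, AddSubgroup.mem_zmultiples _⟩)
        obtain ⟨hp1, -⟩ := all_Pc H ι (s.filter fun i => f i ∉ R) (fun i => π (f i))
          (AddSubgroup.zmultiples (π (f i))) (j / Y) hqn d1 hL'g
          (fun k hk _ => hlam' k hk)
        have hst : (st (FS (s.filter fun i => f i ∉ R) (fun i => π (f i)))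
            (AddSubgroup.zmultiples (π (f i)))).card = Nat.card H := by
          have := Fintype.ofFinite H
          rw [Nat.card_eq_fintype_card, ← Finset.card_univ]
          congr 1
          rw [Finset.eq_univ_iff_forall]
          intro y
          obtain ⟨g, rfl⟩ := hπs y
          obtain ⟨b, hb, hgb⟩ := hfull g
          refine P1_mem_st.2 ⟨π b, ?_, ?_⟩
          · rw [q_image s f hπk]
            exact mem_image_of_mem π hb
          · rw [← map_sub]
            have h1 : gen (insert i (s.filter fun k => f k ∈ R)) f ≤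
                (AddSubgroup.zmultiples (π (f i))).comap π := by
              unfold gen
              rw [AddSubgroup.closure_le]
              rintro _ ⟨k, hk, rfl⟩
              rw [mem_coe, mem_insert, mem_filter] at hk
              rw [SetLike.mem_coe, AddSubgroup.mem_comap]
              rcases hk with rfl | ⟨-, hk⟩
              · exact AddSubgroup.mem_zmultiples _
              · rw [(hπk _).2 hk]
                exact AddSubgroup.zero_mem _
            exact h1 hgb
        rw [hst, ← hQ'] at hp1
        -- the order of the member of the quotient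
        have hLb : AddSubgroup.zmultiples (π (f i)) ≠ ⊥ := by
          intro hb
          have h1 : π (f i) ∈ AddSubgroup.zmultiples (π (f i)) := AddSubgroup.mem_zmultiples _
          rw [hb, AddSubgroup.mem_bot] at h1
          exact hqn i hi h1
        obtain ⟨Y', hY''⟩ : ∃ Y', Y' = (FS ((s.filter fun i => f i ∉ R).filter fun k =>
            π (f k) ∈ AddSubgroup.zmultiples (π (f i))) (fun i => π (f i))).card := ⟨_, rfl⟩
        have hsub' : ((s.filter fun i => f i ∉ R).filter fun k =>
            π (f k) ∈ AddSubgroup.zmultiples (π (f i))) ⊆ s.filter fun i => f i ∉ R :=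
          filter_subset _ _
        have hA' := (all_Ba1 H ι (fun i => π (f i))).2.1 _ _ hsub' d1
        have hY2 : 2 ≤ Y' := by
          have h7 := (all_Sm H ι _ (fun i => π (f i)) (fun k hk => hqn k (hsub' hk)) hA').1
          have h8 : 1 ≤ ((s.filter fun i => f i ∉ R).filter fun k =>
            π (f k) ∈ AddSubgroup.zmultiples (π (f i))).card :=
            card_pos.2 ⟨i, mem_filter.2 ⟨hi, AddSubgroup.mem_zmultiples _⟩⟩
          rw [hY'']
          omega
        have hY3 : Y' + 1 ≤ Nat.card (AddSubgroup.zmultiples (π (f i))) := by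
          rw [hY'']
          exact (all_Kn H).2.2.2 _ _ ⟨0, zero_mem_FS _ _⟩ hLb
            (fun x hx => FS_subset_of_mem (fun k hk => (mem_filter.1 hk).2) hx) hA'
        rw [← hY''] at hp1
        obtain ⟨μ, hμ⟩ : ∃ μ, μ = Nat.card (AddSubgroup.zmultiples (π (f i))) := ⟨_, rfl⟩
        rw [← hμ] at hp1 hY3
        obtain ⟨m, hm⟩ := AddSubgroup.card_addSubgroup_dvd_card (AddSubgroup.zmultiples (π (f i)))
        rw [← hμ] at hm
        have hμe : μ ≤ AddMonoid.exponent G := by
          rw [hμ, Nat.card_zmultiples]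
          exact Nat.le_of_dvd (exp_pos G) ((AddMonoid.addOrder_dvd_exponent _).trans
            (AddMonoidHom.exponent_dvd hπs))
        have hl : l0 G ≤ r * m := by
          apply l0_le
          rw [hπc, hm]
          calc r * (μ * m) = r * m * μ := by ring
            _ ≤ r * m * AddMonoid.exponent G := Nat.mul_le_mul_left _ hμe
        have h1 : μ * m ≤ Q + j / Y * (μ - 2) := by
          rw [← hm]
          exact hp1.trans (Nat.add_le_add_left (Nat.mul_le_mul_left _ (by omega)) _)
        refine hB2 h u v (l0 G) r Y Q (FS s f).card j μ m hh hu3 d6 hl2 ?_ ?_ ?_ ?_ hYR d7 hl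
          (by omega) d2 d3 (by omega) h1
        · rw [e1, e2]; omega
        · rw [e1]; omega
        · rw [e2]; omega
        · rw [huv]; omega
  · -- case α
    have hlow' : ∀ i ∈ s, cf (2 * h) (t - 1) + l0 G ≤ (FS (s.erase i) f).card := by
      intro i hi
      rcases hlow i hi with h5 | h5
      · omega
      · exact h5
    have hlam : ∀ i ∈ s, lam (FS s f) (f i) ≤ jh h t - 1 := by
      intro i hi
      have h3 := (all_Ba1 G ι f).2.2.1 s i hi
      have h4 := hlow' i hi
      omega
    have hTl : jh h t * (jh h t - 1) + 1 ≤ (FS s f).card := by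
      obtain ⟨i, hi⟩ : s.Nonempty := by
        rw [← card_pos]
        omega
      have h5 := hlow' i hi
      have h6 := hmono i
      have h7 := Al_low h t (by omega) ht0
      omega
    obtain ⟨H0, hH0, k, hk, hkH⟩ := Al_sub h (by omega) s f h0 hcap hA hg (by omega)
      (by rw [hs]; exact hlam) (by rw [hs]; exact hTl) (by rw [hs]; exact hc3)
    rw [hs] at hH0
    rcases Al_cand s f (jh h t) h0 hA hlam H0 hH0 k hk hkH with h5 | ⟨P, hPb, hC⟩
    · omega
    · obtain ⟨H, _, _, π, hπs, hπk, hπc⟩ := q_exists G P
      obtain ⟨d1, d2, d3, d4, d5⟩ := Cd_data hπs hπk hC h0 hA (jh h t - 1) hlam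
      obtain ⟨d6, d7⟩ := d5 hPb
      have hu := two_le_card hC.1 hge hg
      have huv : (s.filter fun i => f i ∉ P).card + (s.filter fun i => f i ∈ P).card = t := by
        rw [← hs, add_comm]
        exact Finset.card_filter_add_card_filter_not (s := s) (fun i => f i ∈ P)
      have hsubR : (s.filter fun i => f i ∈ P) ⊆ s := filter_subset _ _
      have hAR : Aper (FS (s.filter fun i => f i ∈ P) f) := (all_Ba1 G ι f).2.1 _ _ hsubR hA
      have hYR : cf (2 * h) (s.filter fun i => f i ∈ P).card ≤
          (FS (s.filter fun i => f i ∈ P) f).card :=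
        hTT h (by omega) _ G ι (s.filter fun i => f i ∈ P) f rfl (fun k hk => h0 k (hsubR hk))
          (fun x => (card_le_card (filter_subset_filter _ hsubR)).trans (hcap x)) hAR
      have hqg : gen (s.filter fun i => f i ∉ P) (fun i => π (f i)) = ⊤ := q_gen s f hπs hπk hg
      have hqn := q_ne s f hπk
      have hqc : Cap (2 * (h * Nat.card P)) (s.filter fun i => f i ∉ P) (fun i => π (f i)) := by
        rw [← mul_assoc]
        exact q_cap s f hπs hπk (2 * h) hcap
      have hM : 3 ≤ Nat.card P := by omega
      have hhM : 3 ≤ h * Nat.card P := by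
        calc 3 ≤ Nat.card P := hM
          _ = 1 * Nat.card P := (one_mul _).symm
          _ ≤ h * Nat.card P := Nat.mul_le_mul_right _ (by omega)
      have hQlow := hTT (h * Nat.card P) (by omega) _ H ι (s.filter fun i => f i ∉ P)
        (fun i => π (f i)) rfl hqn hqc d1
      have hlc : IsAddCyclic H → l0 G ≤ Nat.card P := fun hHc => TG_l0c hπs hπc hHc
      have hln := TG_l0n hπs hπc
      have hu4 : (s.filter fun i => f i ∉ P).card < t := by omega
      have hTG := ih _ hu4 (h * Nat.card P) hhM H ι (s.filter fun i => f i ∉ P)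
        (fun i => π (f i)) rfl hqn hqc d1 hqg
      have hQH : (FS (s.filter fun i => f i ∉ P) (fun i => π (f i))).card + 1 ≤ Nat.card H := by
        have hHb : (⊤ : AddSubgroup H) ≠ ⊥ := by
          intro hb
          apply hC.1
          rw [eq_top_iff]
          intro x _
          rw [← hπk]
          have h6 : π x ∈ (⊤ : AddSubgroup H) := AddSubgroup.mem_top _
          rwa [hb, AddSubgroup.mem_bot] at h6
        have h7 := (all_Kn H).2.2.2 (FS (s.filter fun i => f i ∉ P) (fun i => π (f i))) ⊤
          ⟨0, zero_mem_FS _ _⟩ hHb (fun x _ => AddSubgroup.mem_top _) d1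
        rwa [AddSubgroup.card_top] at h7
      obtain ⟨u, hu'⟩ : ∃ u, u = (s.filter fun i => f i ∉ P).card := ⟨_, rfl⟩
      obtain ⟨v, hv'⟩ : ∃ v, v = (s.filter fun i => f i ∈ P).card := ⟨_, rfl⟩
      obtain ⟨Y, hY'⟩ : ∃ Y, Y = (FS (s.filter fun i => f i ∈ P) f).card := ⟨_, rfl⟩
      obtain ⟨Q, hQ'⟩ : ∃ Q, Q = (FS (s.filter fun i => f i ∉ P) (fun i => π (f i))).card :=
        ⟨_, rfl⟩
      obtain ⟨M, hM'⟩ : ∃ M, M = Nat.card P := ⟨_, rfl⟩
      rw [← hY', ← hQ', ← hM'] at d2
      rw [← hY', ← hQ'] at d3
      rw [← hv', ← hY'] at d4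
      rw [← hv'] at d6
      rw [← hY', ← hM'] at d7
      rw [← hu'] at hu
      rw [← hu', ← hv'] at huv
      rw [← hv', ← hY'] at hYR
      rw [← hM'] at hlc hln hM
      rw [← hQ'] at hQH
      rw [← hu', ← hQ', ← hM'] at hQlow hTG
      rw [← huv] at d2
      have e2 : u + v - 1 = t - 1 := by omega
      by_cases hHc : IsAddCyclic H
      · rcases hNA h u v M Y Q (FS s f).card 0 hh hu d6 hYR d7 (by rw [add_zero]; exact hQlow)
          d2 d3 with h6 | h6
        · rw [e2] at h6
          omega
        · rw [huv, zero_add, mul_one] at h6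
          have := hlc hHc
          omega
      · rcases hTG hHc with h6 | h6 | h6
        · have h7 := hNB h u v M Y Q (FS s f).card hh hu d6 hYR d7 h6 d2 d3
          rw [e2] at h7
          omega
        · rcases hNA h u v M Y Q (FS s f).card (l0 H) hh hu d6 hYR d7 h6 d2 d3 with h7 | h7
          · rw [e2] at h7
            omega
          · rw [huv] at h7
            have h8 : M * l0 H ≤ M * (l0 H + 1) := Nat.mul_le_mul_left _ (Nat.le_succ _)
            omega
        · have h7 := hNH h u v M Y Q (FS s f).card (Nat.card H) (by omega) d6 hM (by omega) hQH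
            h6 d2
          rw [hM', ← hπc, huv] at h7
          omega

end Pool.Agent.SNG
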