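import Pool.Agent.SNG.Ex
import Pool.Agent.SNG.TGa
import Pool.Agent.SSE.St

/-!
# SNG, module M1a (helper22): the gain for cap 2 in noncyclic groups
-/

set_option autoImplicit false

noncomputable section

open Finset Pool.Agent.Helper64.Rho Pool.Agent.SDG Pool.Agent.SNW
open scoped Classical Pointwise

namespace Pool.Agent.SNG

/-- the lower bound for cap 2 in the group `G` (all families, not only generating ones) -/
def PAG (G : Type) [AddCommGroup G] [Finite G] : Prop :=
  ∀ (ι : Type) (s : Finset ι) (f : ι → G), (∀ i ∈ s, f i ≠ 0) → Cap 2 s f → Aper (FS s f) →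
    cf 2 s.card ≤ (FS s f).card

/-- small `t`, cap 2 -/
def A1P (G : Type) [AddCommGroup G] [Finite G] : Prop :=
  ∀ (ι : Type) (s : Finset ι) (f : ι → G), (∀ i ∈ s, f i ≠ 0) → Cap 2 s f → Aper (FS s f) →
    gen s f = ⊤ → pn (s.card - 1) + 2 ≤ cf 2 (s.card - 1) + l0 G →
      pn s.card ≤ (FS s f).card ∨ cf 2 s.card + l0 G ≤ (FS s f).card + 1 ∨
        Nat.card G ≤ (FS s f).card + jh 1 s.card * (jh 1 s.card - 1)

theorem M1_pn (t : ℕ) : pn t ≤ 2 * cf 2 (t - 1) := by
  unfold pn
  split_ifs with h1 h2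
  · subst h1
    decide
  · subst h2
    decide
  · exact le_rfl

theorem thm_M1 (hNC : St_NC) (hND : St_ND) (hNE : St_NE) (hNF : St_NF) (hNG : St_NG)
    (hNH : St_NH) (hTG : ∀ h, 3 ≤ h → ∀ t, TG h t) (hPEc : ∀ t, SSE.PE t)
    (G : Type) [AddCommGroup G] [Finite G] (hPA : PAG G) (hA1 : A1P G)
    (hcyc : ¬ IsAddCyclic G) (t : ℕ) : ∀ (ι : Type) (s : Finset ι) (f : ι → G), s.card = t →
    (∀ i ∈ s, f i ≠ 0) → Cap 2 s f → Aper (FS s f) → gen s f = ⊤ →
      pn t ≤ (FS s f).card ∨ cf 2 t + l0 G ≤ (FS s f).card + 1 ∨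
        Nat.card G ≤ (FS s f).card + jh 1 t * (jh 1 t - 1) := by
  induction t with
  | zero =>
    intro ι s f hs h0 hcap hA hg
    exact absurd (one_member_cyc s f (by omega) hg) hcyc
  | succ t0 ih =>
  intro ι s f hs h0 hcap hA hg
  obtain ⟨t, ht⟩ : ∃ t, t = t0 + 1 := ⟨_, rfl⟩
  rw [← ht] at hs ⊢
  have et : t0 = t - 1 := by omega
  rw [et] at ih
  clear et
  by_contra hcon
  push Not at hcon
  obtain ⟨hc1, hc2, hc3⟩ := hcon
  have hbt : (⊥ : AddSubgroup G) ≠ ⊤ := by
    intro hbt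
    apply hcyc
    apply cyc_of_le (0 : G)
    rw [← hbt]
    exact bot_le
  have hcard : ∀ i ∈ s, (s.erase i).card = t - 1 := by
    intro i hi
    rw [card_erase_of_mem hi, hs]
  have hAe : ∀ i, Aper (FS (s.erase i) f) := fun i =>
    (all_Ba1 G ι f).2.1 s (s.erase i) (erase_subset _ _) hA
  have h0e : ∀ i, ∀ k ∈ s.erase i, f k ≠ 0 := fun i k hk => h0 k (erase_subset _ _ hk)
  have hce : ∀ i, Cap 2 (s.erase i) f := fun i x =>
    (card_le_card (filter_subset_filter _ (erase_subset _ _))).trans (hcap x)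
  have hge : ∀ i ∈ s, gen (s.erase i) f = ⊤ := by
    intro i hi
    rw [← hg]
    apply (all_Ba1 G ι f).2.2.2.2.2.1 s i hi
    by_contra hne
    have h3 := (all_Ba1 G ι f).2.2.2.1 s i hi hne
    have h4 := hPA ι (s.erase i) f (h0e i) (hce i) (hAe i)
    rw [hcard i hi] at h4
    have h5 := M1_pn t
    omega
  have hs1 : s.Nonempty := by
    rw [← card_pos]
    omega
  have hmono : ∀ i, (FS (s.erase i) f).card ≤ (FS s f).card := fun i =>
    card_le_card (FS_mono (erase_subset _ _) f)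
  have hα : cf 2 (t - 1) + l0 G ≤ pn (t - 1) + 1 := by
    by_contra hcon
    have h1 := hA1 ι s f h0 hcap hA hg (by rw [hs]; omega)
    rw [hs] at h1
    omega
  have hlow' : ∀ i ∈ s, cf 2 (t - 1) + l0 G ≤ (FS (s.erase i) f).card + 1 := by
    intro i hi
    rcases ih ι (s.erase i) f (hcard i hi) (h0e i) (hce i) (hAe i) (hge i hi) with h5 | h5 | h5
    · omega
    · exact h5
    · exfalso
      have h6 := hmono i
      have h7 := Al_jh_mono 1 (t - 1) t (Nat.sub_le _ _)
      have h8 : jh 1 (t - 1) * (jh 1 (t - 1) - 1) ≤ jh 1 t * (jh 1 t - 1) :=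
        Nat.mul_le_mul h7 (Nat.sub_le_sub_right h7 1)
      omega
  have hl2 := TG_l0two G hcyc
  have hstep := Al_step 1 t le_rfl (by omega)
  rw [mul_one] at hstep
  have hTT : ∀ h' : ℕ, 2 ≤ h' → ∀ u, TT h' u := fun h' hh' u => (all_main u).2 h' hh'
  have hlam : ∀ i ∈ s, lam (FS s f) (f i) ≤ jh 1 t - 1 := by
    intro i hi
    have h3 := (all_Ba1 G ι f).2.2.1 s i hi
    have h4 := hlow' i hi
    omega
  have hTl : jh 1 t * (jh 1 t - 1) + 1 ≤ (FS s f).card := by
    obtain ⟨i, hi⟩ := hs1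
    have h5 := hlow' i hi
    have h6 := hmono i
    have h7 := Al_low 1 t le_rfl (by omega)
    rw [mul_one] at h7
    omega
  obtain ⟨H0, hH0, k, hk, hkH⟩ := Al_sub 1 le_rfl s f h0 (by rw [mul_one]; exact hcap) hA hg
    (by omega) (by rw [hs]; exact hlam) (by rw [hs]; exact hTl) (by rw [hs]; exact hc3)
  rw [hs] at hH0
  rcases Al_cand s f (jh 1 t) h0 hA hlam H0 hH0 k hk hkH with h5 | ⟨P, hPb, hC⟩
  · omega
  obtain ⟨H, _, _, π, hπs, hπk, hπc⟩ := q_exists G P
  obtain ⟨d1, -, -, d4, d5⟩ := Cd_data hπs hπk hC h0 hA (jh 1 t - 1) hlam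
  obtain ⟨d6, d7⟩ := d5 hPb
  obtain ⟨m, a, hm, ha, hma, d2, d3, d8⟩ := Al_data hπk hC h0 hA (jh 1 t - 1) hlam hPb
  have hu := two_le_card hC.1 hge hg
  have huv : (s.filter fun i => f i ∉ P).card + (s.filter fun i => f i ∈ P).card = t := by
    rw [← hs, add_comm]
    exact Finset.card_filter_add_card_filter_not (s := s) (fun i => f i ∈ P)
  have hsubR : (s.filter fun i => f i ∈ P) ⊆ s := filter_subset _ _
  have hAR : Aper (FS (s.filter fun i => f i ∈ P) f) := (all_Ba1 G ι f).2.1 _ _ hsubR hA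
  have hYR : cf 2 (s.filter fun i => f i ∈ P).card ≤
      (FS (s.filter fun i => f i ∈ P) f).card :=
    hPA ι (s.filter fun i => f i ∈ P) f (fun k hk => h0 k (hsubR hk))
      (fun x => (card_le_card (filter_subset_filter _ hsubR)).trans (hcap x)) hAR
  have hqg : gen (s.filter fun i => f i ∉ P) (fun i => π (f i)) = ⊤ := q_gen s f hπs hπk hg
  have hqn := q_ne s f hπk
  have hqc : Cap (2 * Nat.card P) (s.filter fun i => f i ∉ P) (fun i => π (f i)) :=
    q_cap s f hπs hπk 2 hcap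
  have hM : 3 ≤ Nat.card P := by omega
  have hQlow := hTT (Nat.card P) (by omega) _ H ι (s.filter fun i => f i ∉ P)
    (fun i => π (f i)) rfl hqn hqc d1
  have hlc : IsAddCyclic H → l0 G ≤ Nat.card P := fun hHc => TG_l0c hπs hπc hHc
  have hln := TG_l0n hπs hπc
  have hTG' := hTG (Nat.card P) hM _ H ι (s.filter fun i => f i ∉ P)
    (fun i => π (f i)) rfl hqn hqc d1 hqg
  have hQH : (FS (s.filter fun i => f i ∉ P) (fun i => π (f i))).card + 1 ≤ Nat.card H := by
    have hHb : (⊤ : AddSubgroup H) ≠ ⊥ := by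
      intro hb
      apply hC.1
      rw [eq_top_iff]
      intro x _
      rw [← hπk]
      have h6 : π x ∈ (⊤ : AddSubgroup H) := AddSubgroup.mem_top _
      rwa [hb, AddSubgroup.mem_bot] at h6
    have h7 := (all_Kn H).2.2.2 (FS (s.filter fun i => f i ∉ P) (fun i => π (f i))) ⊤
      ⟨0, zero_mem_FS _ _⟩ hHb (fun x _ => AddSubgroup.mem_top _) d1
    rwa [AddSubgroup.card_top] at h7
  obtain ⟨u, hu'⟩ : ∃ u, u = (s.filter fun i => f i ∉ P).card := ⟨_, rfl⟩
  obtain ⟨v, hv'⟩ : ∃ v, v = (s.filter fun i => f i ∈ P).card := ⟨_, rfl⟩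
  obtain ⟨Y, hY'⟩ : ∃ Y, Y = (FS (s.filter fun i => f i ∈ P) f).card := ⟨_, rfl⟩
  obtain ⟨Q, hQ'⟩ : ∃ Q, Q = (FS (s.filter fun i => f i ∉ P) (fun i => π (f i))).card :=
    ⟨_, rfl⟩
  rw [← hY', ← hQ'] at d2
  rw [← hY', ← hQ'] at d3
  rw [← hv', ← hY'] at d4
  rw [← hY'] at d8
  rw [← hv'] at d6
  rw [← hu'] at hu
  rw [← hu', ← hv'] at huv
  rw [← hv', ← hY'] at hYR
  rw [hma] at hlc hln
  rw [← hQ'] at hQH
  rw [← hu', ← hQ', hma] at hQlow hTG'
  rw [← huv] at d2
  by_cases hHc : IsAddCyclic H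
  · rcases hNC u v m a Y Q (FS s f).card hu d6 hm hYR d8 hQlow d2 d3 with h6 | h6 | ⟨h6, h7, h8⟩
    · rw [huv] at h6
      omega
    · rw [huv] at h6
      have := hlc hHc
      omega
    · -- the exceptional case
      rw [h6, one_mul] at hma hlc hQlow
      rw [h6, one_mul] at d2 d3
      have hself : gen (s.filter fun i => f i ∈ P) f = P := by
        have hLP : gen (s.filter fun i => f i ∈ P) f ≤ P := P1_gen_le s f P
        apply SetLike.coe_injective
        refine Set.eq_of_subset_of_ncard_le (fun x hx => hLP hx) ?_ (Set.toFinite _)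
        show Nat.card P ≤ Nat.card (gen (s.filter fun i => f i ∈ P) f)
        rw [hma, ha]
      by_cases hpair : ∃ i ∈ s.filter (fun i => f i ∉ P), ∃ k ∈ s.filter (fun i => f i ∉ P),
          i ≠ k ∧ ((f i - f k ∈ P ∧ f i ≠ f k) ∨ (f i + f k ∈ P ∧ f i ≠ - f k))
      · obtain ⟨i, hi, k, hk, hik, hpm⟩ := hpair
        obtain ⟨hq1, hq2⟩ := Ex_count s f P π hπk (jh 1 t - 1) h0 hA hself
          (fun i hi _ => hlam i hi) hPb i k hi hk hik hpm
        have hsub2 : ((s.filter fun i => f i ∉ P).erase i).erase k ⊆ s.filter fun i => f i ∉ P :=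
          (erase_subset _ _).trans (erase_subset _ _)
        have hcard2 : (((s.filter fun i => f i ∉ P).erase i).erase k).card = u - 2 := by
          rw [card_erase_of_mem (mem_erase.2 ⟨Ne.symm hik, hk⟩), card_erase_of_mem hi, ← hu']
          omega
        have hQ2 := hTT (Nat.card P) (by omega) _ H ι
          (((s.filter fun i => f i ∉ P).erase i).erase k)
          (fun i => π (f i)) hcard2 (fun z hz => hqn z (hsub2 hz))
          (fun x => (card_le_card (filter_subset_filter _ hsub2)).trans (hqc x))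
          ((all_Ba1 H ι (fun i => π (f i))).2.1 _ _ hsub2 d1)
        rw [hma] at hQ2 hq2
        rw [← hQ'] at hq1 hq2
        rw [← hY', h8, ← huv] at hq2
        rw [h8] at d2 d3
        rcases hNF u v a Q _ (FS s f).card hu d6 h7 (by omega) hQlow hQ2 hq1 d2 hq2 d3
          with h9 | h9
        · rw [huv] at h9
          omega
        · rw [huv] at h9
          have := hlc hHc
          omega
      · have hcap2 := Ex_cap s f P π hπk hcap (by
          intro i hi k hk hik hpm
          exact hpair ⟨i, hi, k, hk, hik, hpm⟩)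
        have h9 := hPEc u H ι (s.filter fun i => f i ∉ P) (fun i => π (f i)) hHc hu'.symm hqn
          hcap2 d1
        rw [← hQ'] at h9
        have h10 := hNG u v hu d6 h7
        rw [huv] at h10
        rw [h8] at d3
        have h11 : (v + 1) * cf 2 u ≤ Q * (v + 1) := by
          rw [mul_comm Q]
          exact Nat.mul_le_mul_left _ h9
        omega
  · rcases hTG' hHc with h6 | h6 | h6
    · have h7 := hNE u v m a Y Q (FS s f).card hu d6 hm hYR d8 h6 d2 d3
      rw [huv] at h7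
      omega
    · rcases hND u v m a Y Q (FS s f).card (l0 H) hu d6 hm hYR d8 (TG_l0two H hHc) h6 d2 d3
        with h7 | h7
      · rw [huv] at h7
        omega
      · rw [huv] at h7
        omega
    · -- near-full quotient
      have d9 : m * a * Q ≤ (FS s f).card + (jh 1 (u + v) - 1) * (m * a - Y) := by
        refine d2.trans (Nat.add_le_add_left (Nat.mul_le_mul_left _ (Nat.sub_le_sub_right ?_ _)) _)
        exact Nat.le_mul_of_pos_left a hm
      have h7 := hNH 1 u v (m * a) Y Q (FS s f).card (Nat.card H) le_rfl d6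
        (by rw [← hma]; exact hM) (by omega) hQH (by rw [one_mul]; exact h6) d9
      rw [← hma, ← hπc, huv] at h7
      omega

/-- **M1** in the form used by `SNW.thm_W2` -/
theorem thm_M1P (hNC : St_NC) (hND : St_ND) (hNE : St_NE) (hNF : St_NF) (hNG : St_NG)
    (hNH : St_NH) (hTG : ∀ h, 3 ≤ h → ∀ t, TG h t) (hPEc : ∀ t, SSE.PE t)
    (G : Type) [AddCommGroup G] [Finite G] (hPA : PAG G) (hA1 : A1P G)
    (hcyc : ¬ IsAddCyclic G) : M1P G (l0 G - 1) := by
  intro ι s f h0 hcap hA hg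
  have hl2 := TG_l0two G hcyc
  rcases thm_M1 hNC hND hNE hNF hNG hNH hTG hPEc G hPA hA1 hcyc s.card ι s f rfl h0 hcap hA hg
    with h1 | h1 | h1
  · left
    exact (min_le_left _ _).trans h1
  · left
    refine (min_le_right _ _).trans ?_
    omega
  · right
    rw [← Al_jj]
    exact h1

end Pool.Agent.SNG
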