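import Pool.Agent.SNG.St

/-!
# SNG, module Al (helper22): from small `lam` to a candidate
-/

set_option autoImplicit false

noncomputable section

open Finset Pool.Agent.Helper64.Rho Pool.Agent.SDG Pool.Agent.SNW
open scoped Classical Pointwise

namespace Pool.Agent.SNG

theorem Al_jh (h t : ℕ) (hh : 1 ≤ h) (ht : 1 ≤ t) : jh h t = (t - 1) / (2 * h) + 1 := by
  unfold jh
  obtain ⟨r, rfl⟩ : ∃ r, t = r + 1 := ⟨t - 1, by omega⟩
  have h1 : r + 1 + 2 * h - 1 = r + 2 * h := by omega
  rw [h1, Nat.add_sub_cancel, Nat.add_div_right _ (by omega)]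

theorem Al_jh_mono (h t t' : ℕ) (htt : t ≤ t') : jh h t ≤ jh h t' := by
  unfold jh
  exact Nat.div_le_div_right (by omega)

theorem Al_jj (t : ℕ) : jh 1 t = jj t := by
  unfold jh jj
  congr 1

/-- `cf (2 h) t - cf (2 h) (t - 1) = ⌈t / 2h⌉` -/
theorem Al_step (h t : ℕ) (hh : 1 ≤ h) (ht : 1 ≤ t) :
    cf (2 * h) t = cf (2 * h) (t - 1) + jh h t := by
  have h1 := thm_Nm1.1 (2 * h) (t - 1)
  rw [Nat.sub_add_cancel ht] at h1
  rw [h1, Al_jh h t hh ht]
  ring

/-- `J (J - 1) + 1 ≤ cf (2 h) (t - 1)` -/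
theorem Al_low (h t : ℕ) (hh : 1 ≤ h) (ht : 1 ≤ t) :
    jh h t * (jh h t - 1) + 1 ≤ cf (2 * h) (t - 1) := by
  rw [Al_jh h t hh ht, Nat.add_sub_cancel]
  have hr : (t - 1) % (2 * h) ≤ 2 * h := (Nat.mod_lt _ (by omega)).le
  have hu : 2 * h * ((t - 1) / (2 * h)) + (t - 1) % (2 * h) = t - 1 := Nat.div_add_mod _ _
  have h1 := thm_Nm1.2.1 (2 * h) ((t - 1) / (2 * h)) ((t - 1) % (2 * h)) (by omega) hr
  rw [hu] at h1
  generalize (t - 1) / (2 * h) = b at h1
  generalize (t - 1) % (2 * h) = r at h1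
  obtain ⟨e, rfl⟩ : ∃ e, h = e + 1 := ⟨h - 1, by omega⟩
  nlinarith [Nat.zero_le (e * (b * (b + 1))), Nat.zero_le (r * (b + 1))]

/-- the symmetric set of a family with cap `2 h` -/
theorem Al_Ds (h : ℕ) (hh : 1 ≤ h) (G ι : Type) [AddCommGroup G] (s : Finset ι) (f : ι → G)
    (hnz : ∀ i ∈ s, f i ≠ 0) (hap : Aper (FS s f)) (hcap : Cap (2 * h) s f) :
    ∃ D : Finset G, (0 : G) ∈ D ∧ (∀ y ∈ D, -y ∈ D) ∧
      (∀ y ∈ D, y ≠ 0 → ∃ i ∈ s, f i = y ∨ f i = -y) ∧
      AddSubgroup.closure (D : Set G) = gen s f ∧ 2 * jh h s.card + 1 ≤ D.card := by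
  obtain ⟨-, -, -, -, hinv, -, -⟩ := all_Ba1 G ι f
  have hne : ∀ i ∈ s, f i ≠ - f i := fun i hi => hinv s i hi hap (hnz i hi)
  set E : Finset G := s.image f ∪ s.image (fun i => - f i) with hE
  have hmem : ∀ y, y ∈ E ↔ ∃ i ∈ s, f i = y ∨ f i = -y := by
    intro y
    rw [hE, Finset.mem_union, Finset.mem_image, Finset.mem_image]
    constructor
    · rintro (⟨i, hi, h⟩ | ⟨i, hi, h⟩)
      · exact ⟨i, hi, Or.inl h⟩
      · exact ⟨i, hi, Or.inr (by rw [← h, neg_neg])⟩
    · rintro ⟨i, hi, h | h⟩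
      · exact Or.inl ⟨i, hi, h⟩
      · exact Or.inr ⟨i, hi, by rw [h, neg_neg]⟩
  have hneg : ∀ y ∈ E, -y ∈ E := by
    intro y hy
    obtain ⟨i, hi, h⟩ := (hmem y).1 hy
    refine (hmem (-y)).2 ⟨i, hi, ?_⟩
    rw [neg_neg]
    exact h.symm
  have hfix : ∀ y ∈ E, y ≠ -y := by
    intro y hy h0
    obtain ⟨i, hi, h | h⟩ := (hmem y).1 hy
    · apply hne i hi
      rw [h]
      exact h0
    · apply hne i hi
      rw [h, neg_neg]
      exact h0.symm
  have hzero : (0 : G) ∉ E := by
    intro h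
    exact hfix 0 h (neg_zero).symm
  have hev := Ds_even E hneg hfix
  have hcount : s.card ≤ h * E.card := by
    have h1 : (s ×ˢ (Finset.univ : Finset Bool)).card ≤ 2 * h * E.card := by
      refine Finset.card_le_mul_card_image_of_maps_to
        (f := fun p : ι × Bool => if p.2 then f p.1 else - f p.1) ?_ (2 * h) ?_
      · rintro ⟨i, b⟩ hp
        have hi := (Finset.mem_product.1 hp).1
        cases b
        · exact (hmem _).2 ⟨i, hi, Or.inr (by simp)⟩
        · exact (hmem _).2 ⟨i, hi, Or.inl (by simp)⟩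
      · intro y hy
        refine le_trans ?_ (hcap y)
        refine Finset.card_le_card_of_injOn (fun p : ι × Bool => p.1) ?_ ?_
        · rintro ⟨i, b⟩ hp
          rw [Finset.mem_coe, Finset.mem_filter] at hp
          rw [Finset.mem_coe, Finset.mem_filter]
          refine ⟨(Finset.mem_product.1 hp.1).1, ?_⟩
          have h2 := hp.2
          cases b
          · right
            simp only [Bool.false_eq_true, if_false] at h2
            rw [← h2, neg_neg]
          · left
            simpa using h2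
        · rintro ⟨i, b⟩ hp ⟨i', b'⟩ hp' h
          rw [Finset.mem_coe, Finset.mem_filter] at hp hp'
          have hii : i = i' := h
          subst hii
          have hi := (Finset.mem_product.1 hp.1).1
          have h2 := hp.2
          have h3 := hp'.2
          cases b <;> cases b'
          · rfl
          · exfalso
            simp only [Bool.false_eq_true, if_false, if_true] at h2 h3
            exact hne i hi (h3.trans h2.symm)
          · exfalso
            simp only [Bool.false_eq_true, if_false, if_true] at h2 h3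
            exact hne i hi (h2.trans h3.symm)
          · rfl
    rw [Finset.card_product, Finset.card_univ, Fintype.card_bool] at h1
    have h2 : 2 * h * E.card = 2 * (h * E.card) := by ring
    omega
  refine ⟨insert 0 E, Finset.mem_insert_self _ _, ?_, ?_, ?_, ?_⟩
  · intro y hy
    rcases Finset.mem_insert.1 hy with rfl | hy
    · rw [neg_zero]; exact Finset.mem_insert_self _ _
    · exact Finset.mem_insert_of_mem (hneg y hy)
  · intro y hy hy0
    exact (hmem y).1 ((Finset.mem_insert.1 hy).resolve_left hy0)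
  · apply le_antisymm
    · rw [AddSubgroup.closure_le]
      intro y hy
      rcases Finset.mem_insert.1 (Finset.mem_coe.1 hy) with rfl | hy
      · exact (gen s f).zero_mem
      · obtain ⟨i, hi, h⟩ := (hmem y).1 hy
        have h1 : f i ∈ gen s f := AddSubgroup.subset_closure ⟨i, hi, rfl⟩
        rcases h with h | h
        · rw [← h]; exact h1
        · have h2 := (gen s f).neg_mem h1
          rw [h, neg_neg] at h2
          exact h2
    · unfold gen
      rw [AddSubgroup.closure_le]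
      rintro _ ⟨i, hi, rfl⟩
      apply AddSubgroup.subset_closure
      rw [Finset.mem_coe]
      exact Finset.mem_insert_of_mem ((hmem _).2 ⟨i, hi, Or.inl rfl⟩)
  · rw [Finset.card_insert_of_notMem hzero]
    obtain ⟨e, he⟩ := hev
    have h3 : jh h s.card ≤ e := by
      unfold jh
      rw [← Nat.lt_succ_iff, Nat.div_lt_iff_lt_mul (by omega)]
      rw [he] at hcount
      have h4 : h * (2 * e) = 2 * h * e := by ring
      rw [h4] at hcount
      have h5 : (e + 1) * (2 * h) = 2 * h * e + 2 * h := by ring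
      rw [Nat.succ_eq_add_one, h5]
      omega
    omega

/-- all `lam ≤ J - 1`: a member lies in a small subgroup -/
theorem Al_sub (h : ℕ) (hh : 1 ≤ h) {G ι : Type} [AddCommGroup G] [Finite G] (s : Finset ι)
    (f : ι → G) (h0 : ∀ i ∈ s, f i ≠ 0) (hC : Cap (2 * h) s f) (hA : Aper (FS s f))
    (hgen : gen s f = ⊤) (hs1 : 1 ≤ s.card)
    (hlam : ∀ i ∈ s, lam (FS s f) (f i) ≤ jh h s.card - 1)
    (hTl : jh h s.card * (jh h s.card - 1) + 1 ≤ (FS s f).card)
    (hc2 : (FS s f).card + jh h s.card * (jh h s.card - 1) < Nat.card G) :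
    ∃ H : AddSubgroup G, Nat.card H + 1 ≤ jh h s.card ∧ ∃ i ∈ s, f i ∈ H := by
  have := Fintype.ofFinite G
  obtain ⟨D, hD0, hDs', hDf, hDg, hDc⟩ := Al_Ds h hh G ι s f h0 hA hC
  rw [hgen] at hDg
  obtain ⟨J, hJ⟩ : ∃ J, J = jh h s.card := ⟨_, rfl⟩
  have hJ0 : 1 ≤ J := by
    rw [hJ, Al_jh h _ hh hs1]
    exact Nat.le_add_left 1 _
  rw [← hJ] at hDc hlam hTl hc2 ⊢
  have hlD : ∀ y ∈ D, lam (FS s f) y ≤ J - 1 := by
    intro y hy
    by_cases hy0 : y = 0
    · rw [hy0, lam_zero]
      exact Nat.zero_le _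
    · obtain ⟨i, hi, h | h⟩ := hDf y hy hy0
      · rw [← h]
        exact hlam i hi
      · rw [← lam_neg, ← h]
        exact hlam i hi
  obtain ⟨X, hX1, hX2, hX3⟩ : ∃ X : Finset G, J * (J - 1) + 1 ≤ X.card ∧
      2 * X.card ≤ Nat.card G ∧ ∀ y, lam X y = lam (FS s f) y := by
    rcases Nat.lt_or_ge (Nat.card G) (2 * (FS s f).card) with h | h
    · refine ⟨(FS s f)ᶜ, ?_, ?_, fun y => lam_compl (FS s f) y⟩
      · rw [card_compl, ← Nat.card_eq_fintype_card]
        omega
      · rw [card_compl, ← Nat.card_eq_fintype_card]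
        omega
    · exact ⟨FS s f, hTl, h, fun y => rfl⟩
  have hJ1 : J - 1 + 1 = J := by omega
  have hex : ∃ i, (it D i).card < 2 * i * J + 1 ∧ (it D i).card < 2 * X.card := by
    by_contra hcon
    push Not at hcon
    refine all_Av G X D (J - 1) hD0 (fun y hy => (hX3 y).le.trans (hlD y hy)) ?_ ?_
    · rw [hJ1]
      exact hX1
    · intro i
      rw [hJ1]
      rcases Nat.lt_or_ge (it D i).card (2 * i * J + 1) with h | h
      · exact Or.inr (hcon i h)
      · exact Or.inl h
  obtain ⟨i, hi1, hi2⟩ := hex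
  obtain ⟨H, hH, y, hy, hy0, hyH⟩ := all_Gr G D J i hD0 hDs' hDg hDc hi1 (by omega)
  obtain ⟨k, hk, hk'⟩ := hDf y hy hy0
  refine ⟨H, hH, k, hk, ?_⟩
  rcases hk' with h | h
  · rw [h]
    exact hyH
  · rw [h]
    exact H.neg_mem hyH

/-- a small subgroup with a member gives a nonzero candidate, or near-full -/
theorem Al_cand {G ι : Type} [AddCommGroup G] [Finite G] (s : Finset ι) (f : ι → G) (J : ℕ)
    (h0 : ∀ i ∈ s, f i ≠ 0) (hA : Aper (FS s f)) (hlam : ∀ i ∈ s, lam (FS s f) (f i) ≤ J - 1)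
    (H : AddSubgroup G) (hH : Nat.card H + 1 ≤ J) (k : ι) (hk : k ∈ s) (hkH : f k ∈ H) :
    Nat.card G ≤ (FS s f).card + J * (J - 1) ∨ ∃ P : AddSubgroup G, P ≠ ⊥ ∧ Cd s f P := by
  have hself := gen_self s f (s.filter fun i => f i ∈ H) (filter_subset _ _)
  obtain ⟨P, hLP, hP, hcase⟩ := Cd_exists s f _ hself
  have hkL : f k ∈ gen (s.filter fun i => f i ∈ H) f := P1_mem_gen (mem_filter.2 ⟨hk, hkH⟩)
  rcases hcase with htop | hC
  · left
    obtain ⟨h1, -⟩ := all_Pc G ι s f _ (J - 1) h0 hA hself (fun i hi _ => hlam i hi)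
    have h2 : (st (FS s f) (gen (s.filter fun i => f i ∈ H) f)).card = Nat.card G := by
      have := Fintype.ofFinite G
      rw [Nat.card_eq_fintype_card, ← Finset.card_univ]
      congr 1
      rw [Finset.eq_univ_iff_forall]
      intro g
      have h3 : g ∈ P := by rw [htop]; trivial
      have h4 : (0 : G) ∈ st (FS s f) (gen (s.filter fun i => f i ∈ H) f) :=
        P1_mem_st.2 ⟨0, zero_mem_FS s f, by rw [sub_self]; exact AddSubgroup.zero_mem _⟩
      have h5 := (hP g).1 h3 0 h4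
      rwa [zero_add] at h5
    rw [h2] at h1
    refine h1.trans (Nat.add_le_add_left ?_ _)
    rw [mul_comm]
    refine Nat.mul_le_mul_right _ ((Nat.sub_le _ _).trans ?_)
    have h6 : Nat.card (gen (s.filter fun i => f i ∈ H) f) ≤ Nat.card H :=
      AddSubgroup.card_le_of_le (P1_gen_le s f H)
    omega
  · right
    refine ⟨P, ?_, hC⟩
    rintro rfl
    exact h0 k hk ((AddSubgroup.mem_bot).1 (hLP hkL))

/-- the finer numbers of a candidate: `|P| = m a`, `a` = order of the group generated by the members in `P` -/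
theorem Al_data {H : Type} [AddCommGroup H] [Finite H] {G ι : Type} [AddCommGroup G] [Finite G]
    {s : Finset ι} {f : ι → G} {P : AddSubgroup G} {π : G →+ H} (hk : ∀ x, π x = 0 ↔ x ∈ P)
    (hC : Cd s f P) (h0 : ∀ i ∈ s, f i ≠ 0) (hA : Aper (FS s f)) (j : ℕ)
    (hj : ∀ i ∈ s, lam (FS s f) (f i) ≤ j) (hP : P ≠ ⊥) :
    ∃ m a : ℕ, 1 ≤ m ∧ a = Nat.card (gen (s.filter fun i => f i ∈ P) f) ∧ Nat.card P = m * a ∧
      m * a * (FS (s.filter fun i => f i ∉ P) (fun i => π (f i))).card ≤
        (FS s f).card + j * (a - (FS (s.filter fun i => f i ∈ P) f).card) ∧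
      m * (FS (s.filter fun i => f i ∉ P) (fun i => π (f i))).card *
        (FS (s.filter fun i => f i ∈ P) f).card ≤ (FS s f).card ∧
      (FS (s.filter fun i => f i ∈ P) f).card + 1 ≤ a := by
  have hsub : (s.filter fun i => f i ∈ P) ⊆ s := filter_subset _ _
  have hAP : Aper (FS (s.filter fun i => f i ∈ P) f) := (all_Ba1 G ι f).2.1 _ _ hsub hA
  have hfil : (s.filter fun i => f i ∈ gen (s.filter fun i => f i ∈ P) f) =
      s.filter fun i => f i ∈ P := P1_filter s f P
  have hLgen : gen (s.filter fun i => f i ∈ gen (s.filter fun i => f i ∈ P) f) f =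
      gen (s.filter fun i => f i ∈ P) f := by rw [hfil]
  have hLP : gen (s.filter fun i => f i ∈ P) f ≤ P := P1_gen_le s f P
  obtain ⟨hP1, hP2⟩ := all_Pc G ι s f (gen (s.filter fun i => f i ∈ P) f) j h0 hA hLgen
    (fun i hi _ => hj i hi)
  rw [hfil, ← Cd_st hC, ← q_card s f hk] at hP1 hP2
  obtain ⟨m, hm⟩ := AddSubgroup.card_dvd_of_le hLP
  obtain ⟨a, ha⟩ : ∃ a, a = Nat.card (gen (s.filter fun i => f i ∈ P) f) := ⟨_, rfl⟩
  rw [← ha] at hm hP1 hP2
  have hPpos : 0 < Nat.card P := Nat.card_pos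
  have hm1 : 1 ≤ m := by
    rcases Nat.eq_zero_or_pos m with h1 | h1
    · rw [h1, mul_zero] at hm
      omega
    · exact h1
  have ha1 : 0 < a := by
    rcases Nat.eq_zero_or_pos a with h1 | h1
    · rw [h1, zero_mul] at hm
      omega
    · exact h1
  have hLb : gen (s.filter fun i => f i ∈ P) f ≠ ⊥ := by
    intro hb
    have h1 : ∀ i ∈ s, f i ∉ P := by
      intro i hi hiP
      have h2 : f i ∈ gen (s.filter fun i => f i ∈ P) f := P1_mem_gen (mem_filter.2 ⟨hi, hiP⟩)
      rw [hb, AddSubgroup.mem_bot] at h2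
      exact h0 i hi h2
    apply hP
    rw [eq_bot_iff]
    intro g hg
    have h3 := (hC.2 g).1 hg
    rw [hb] at h3
    have h5 : st (FS s f) (⊥ : AddSubgroup G) = FS s f := by
      ext x
      rw [P1_mem_st]
      constructor
      · rintro ⟨a, ha, hx⟩
        rw [AddSubgroup.mem_bot, sub_eq_zero] at hx
        rw [hx]
        exact ha
      · intro hx
        exact ⟨x, hx, by rw [sub_self]; exact AddSubgroup.zero_mem _⟩
    rw [h5] at h3
    rw [AddSubgroup.mem_bot]
    exact hA g h3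
  refine ⟨m, a, hm1, ha, by rw [hm, mul_comm], ?_, ?_, ?_⟩
  · have h1 : m * a = a * m := mul_comm _ _
    rw [h1, ← hm]
    exact hP1
  · refine Nat.le_of_mul_le_mul_left ?_ ha1
    have h1 : a * (m * (FS (s.filter fun i => f i ∉ P) (fun i => π (f i))).card *
        (FS (s.filter fun i => f i ∈ P) f).card) = a * m *
        (FS (s.filter fun i => f i ∉ P) (fun i => π (f i))).card *
        (FS (s.filter fun i => f i ∈ P) f).card := by ring
    rw [h1, ← hm]
    exact hP2
  · rw [ha]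
    exact (all_Kn G).2.2.2 _ _ ⟨0, zero_mem_FS _ _⟩ hLb
      (fun x hx => FS_subset_of_mem (fun i hi => P1_mem_gen hi) hx) hAP

end Pool.Agent.SNG
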