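import Pool.Agent.SNG.Al

/-!
# SNG, module Ex (helper22): the exceptional case (two members in one class)
-/

set_option autoImplicit false

noncomputable section

open Finset Pool.Agent.Helper64.Rho Pool.Agent.SDG Pool.Agent.SNW
open scoped Classical Pointwise

namespace Pool.Agent.SNG

/-- the group of the periods of a finite set -/
private def Ex_per {G : Type} [AddCommGroup G] (X : Finset G) : AddSubgroup G where
  carrier := {g | ∀ x ∈ X, x + g ∈ X}
  add_mem' := by
    intro a b ha hb x hx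
    have := hb _ (ha x hx)
    rwa [add_assoc] at this
  zero_mem' := by
    intro x hx
    simpa using hx
  neg_mem' := by
    intro g hg x hx
    have h1 : X.image (· + g) = X := by
      apply eq_of_subset_of_card_le
      · intro y hy
        obtain ⟨z, hz, rfl⟩ := mem_image.1 hy
        exact hg z hz
      · rw [card_image_of_injective _ (add_left_injective g)]
    rw [← h1] at hx
    obtain ⟨z, hz, rfl⟩ := mem_image.1 hx
    simpa using hz

private lemma Ex_mem {G : Type} [AddCommGroup G] {X : Finset G} {g : G} :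
    g ∈ Ex_per X ↔ ∀ x ∈ X, x + g ∈ X := Iff.rfl

private lemma Ex_key {G ι : Type} [AddCommGroup G] [Finite G] (s : Finset ι)
    (f : ι → G) (L : AddSubgroup G) (h0 : ∀ i ∈ s, f i ≠ 0) (hA : ∀ t ⊆ s, Aper (FS t f))
    (hL : gen s f = L) (X : Finset G) (hXL : ∃ x ∈ X, ∃ g ∈ L, x + g ∉ X) :
    s.card ≤ ∑ i ∈ s, lam X (f i) := by
  obtain ⟨RF, hRF, hRc⟩ := fin_exists (Ex_per X)
  set sR := s.filter fun i => f i ∈ Ex_per X with hsR
  have h1 : sR.card + 1 ≤ Nat.card (Ex_per X) := by
    refine ((all_Sm G ι sR f (fun i hi => h0 i (mem_filter.1 hi).1)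
      (hA sR (filter_subset _ _))).1).trans ?_
    rw [← hRc]
    refine card_le_card fun x hx => ?_
    rw [hRF]
    exact FS_subset_of_mem (fun i hi => (mem_filter.1 hi).2) hx
  have h2 : ∃ i ∈ s, f i ∉ Ex_per X := by
    by_contra hcon
    push Not at hcon
    obtain ⟨x, hx, g, hg, hxg⟩ := hXL
    rw [← hL] at hg
    have h3 : gen s f ≤ Ex_per X := by
      unfold gen
      rw [AddSubgroup.closure_le]
      rintro _ ⟨i, hi, rfl⟩
      exact hcon i hi
    exact hxg (Ex_mem.1 (h3 hg) x hx)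
  have h3 : ∀ i ∈ s, f i ∉ Ex_per X → Nat.card (Ex_per X) ≤ lam X (f i) := by
    intro i _ hi
    rw [Ex_mem] at hi
    push Not at hi
    obtain ⟨x, hx, hxi⟩ := hi
    rw [← hRc]
    unfold lam
    refine card_le_card_of_injOn (fun r => x + r) ?_ (fun a _ b _ h => add_left_cancel h)
    intro r hr
    have hr' : r ∈ Ex_per X := (hRF r).1 hr
    show x + r ∈ ((X.filter fun b => b + f i ∉ X : Finset G) : Set G)
    rw [mem_coe, mem_filter]
    refine ⟨Ex_mem.1 hr' x hx, fun h => hxi ?_⟩
    have h4 := Ex_mem.1 ((Ex_per X).neg_mem hr') _ h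
    have h5 : x + r + f i + -r = x + f i := by abel
    rwa [h5] at h4
  set sN := s.filter fun i => f i ∉ Ex_per X with hsN
  have h4 : sR.card + sN.card = s.card := card_filter_add_card_filter_not _
  have h5 : 1 ≤ sN.card := by
    obtain ⟨i, hi, hi'⟩ := h2
    exact card_pos.2 ⟨i, mem_filter.2 ⟨hi, hi'⟩⟩
  have h6 : sN.card * Nat.card (Ex_per X) ≤ ∑ i ∈ s, lam X (f i) := by
    calc sN.card * Nat.card (Ex_per X) = ∑ i ∈ sN, Nat.card (Ex_per X) := by
          rw [sum_const, smul_eq_mul]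
      _ ≤ ∑ i ∈ sN, lam X (f i) :=
          sum_le_sum fun i hi => h3 i (mem_filter.1 hi).1 (mem_filter.1 hi).2
      _ ≤ ∑ i ∈ s, lam X (f i) :=
          sum_le_sum_of_subset (filter_subset _ _)
  refine le_trans ?_ h6
  have h7 : sN.card * (sR.card + 1) ≤ sN.card * Nat.card (Ex_per X) :=
    Nat.mul_le_mul_left _ h1
  nlinarith [Nat.mul_le_mul_right sR.card h5]

section part

variable {G H ι : Type} [AddCommGroup G] [Finite G] [AddCommGroup H] [Finite H]
  (s : Finset ι) (f : ι → G) (L : AddSubgroup G) (π : G →+ H)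

/-- fibres have at most `|L|` elements -/
theorem Ex_fib (hk : ∀ x, π x = 0 ↔ x ∈ L) (T : Finset G) (C : H) :
    (T.filter fun x => π x = C).card ≤ Nat.card L := by
  obtain ⟨LF, hLF, hLc⟩ := fin_exists L
  rcases (T.filter fun x => π x = C).eq_empty_or_nonempty with h1 | ⟨a, ha⟩
  · rw [h1, card_empty]
    exact Nat.zero_le _
  · rw [← hLc]
    refine card_le_card_of_injOn (fun x => x - a) ?_ (fun x _ y _ h => sub_left_injective h)
    intro x hx
    rw [mem_coe, mem_filter] at hx
    show x - a ∈ (LF : Set G)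
    rw [mem_coe, hLF, ← hk, map_sub, hx.2, (mem_filter.1 ha).2, sub_self]

/-- at most `j` classes are not full -/
theorem Ex_part (hk : ∀ x, π x = 0 ↔ x ∈ L) (j : ℕ) (h0 : ∀ i ∈ s, f i ≠ 0)
    (hA : Aper (FS s f)) (hL : gen (s.filter fun i => f i ∈ L) f = L)
    (hj : ∀ i ∈ s, f i ∈ L → lam (FS s f) (f i) ≤ j) :
    (((FS s f).image π).filter fun C =>
      ((FS s f).filter fun x => π x = C).card ≠ Nat.card L).card ≤ j := by
  obtain ⟨sL, hsL⟩ : ∃ sL, sL = s.filter fun i => f i ∈ L := ⟨_, rfl⟩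
  obtain ⟨T, hT⟩ : ∃ T, T = FS s f := ⟨_, rfl⟩
  rw [← hsL] at hL
  rw [← hT] at hj ⊢
  have hLf : ∀ i ∈ sL, f i ∈ L := fun i hi => by
    rw [hsL] at hi
    exact (mem_filter.1 hi).2
  have hsub : sL ⊆ s := by
    rw [hsL]
    exact filter_subset _ _
  obtain ⟨LF, hLF, hLc⟩ := fin_exists L
  have hπa : ∀ x, ∀ y ∈ L, π (x + y) = π x := by
    intro x y hy
    rw [map_add, (hk y).2 hy, add_zero]
  obtain ⟨P, hP⟩ : ∃ P, P = (T.image π).filter fun C =>
    (T.filter fun x => π x = C).card ≠ Nat.card L := ⟨_, rfl⟩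
  rw [← hP]
  have hlam : ∀ y ∈ L, ∑ C ∈ P, lam (T.filter fun x => π x = C) y ≤ lam T y := by
    intro y hy
    have h1 : lam T y = ∑ C ∈ T.image π, lam (T.filter fun x => π x = C) y := by
      unfold lam
      rw [card_eq_sum_card_fiberwise (f := π) (t := T.image π) (fun x hx => by
        rw [mem_coe] at hx ⊢
        exact mem_image_of_mem _ (mem_filter.1 hx).1)]
      refine sum_congr rfl fun C _ => ?_
      congr 1
      ext x
      simp only [mem_filter]
      constructor
      · rintro ⟨⟨h1, h2⟩, h3⟩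
        exact ⟨⟨h1, h3⟩, fun h => h2 h.1⟩
      · rintro ⟨⟨h1, h2⟩, h3⟩
        refine ⟨⟨h1, fun h => h3 ⟨h, ?_⟩⟩, h2⟩
        rw [hπa x y hy]
        exact h2
    rw [h1, hP]
    exact sum_le_sum_of_subset (filter_subset _ _)
  by_cases hP0 : P = ∅
  · rw [hP0, card_empty]
    exact Nat.zero_le _
  have hfull : ∀ C ∈ P, ∃ x ∈ T.filter (fun x => π x = C), ∃ g ∈ L,
      x + g ∉ T.filter fun x => π x = C := by
    intro C hC
    rw [hP] at hC
    obtain ⟨hC1, hC2⟩ := mem_filter.1 hC
    by_contra hcon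
    push Not at hcon
    obtain ⟨a, ha, rfl⟩ := mem_image.1 hC1
    apply hC2
    refine le_antisymm (Ex_fib L π hk T _) ?_
    rw [← hLc]
    refine card_le_card_of_injOn (fun g => a + g) ?_ (fun x _ y _ h => add_left_cancel h)
    intro g hg
    rw [mem_coe, hLF] at hg
    exact hcon a (mem_filter.2 ⟨ha, rfl⟩) g hg
  have hpart : ∀ C ∈ P, sL.card ≤ ∑ i ∈ sL, lam (T.filter fun x => π x = C) (f i) := by
    intro C hC
    exact Ex_key sL f L (fun i hi => h0 i (hsub hi))
      (fun t ht => (all_Ba1 G ι f).2.1 s t (ht.trans hsub) hA) hL _ (hfull C hC)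
  have hb : 0 < sL.card := by
    rw [card_pos]
    by_contra hne
    rw [not_nonempty_iff_eq_empty] at hne
    have hbot : L = ⊥ := by
      rw [← hL, hne]
      simp [gen]
    obtain ⟨C, hC⟩ := nonempty_iff_ne_empty.2 hP0
    obtain ⟨x, hx, g, hg, hxg⟩ := hfull C hC
    rw [hbot, AddSubgroup.mem_bot] at hg
    rw [hg, add_zero] at hxg
    exact hxg hx
  have h2 : sL.card * P.card ≤ sL.card * j := by
    calc sL.card * P.card = ∑ C ∈ P, sL.card := by
          rw [sum_const, smul_eq_mul, mul_comm]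
      _ ≤ ∑ C ∈ P, ∑ i ∈ sL, lam (T.filter fun x => π x = C) (f i) := sum_le_sum hpart
      _ = ∑ i ∈ sL, ∑ C ∈ P, lam (T.filter fun x => π x = C) (f i) := sum_comm
      _ ≤ ∑ i ∈ sL, lam T (f i) := sum_le_sum fun i hi => hlam _ (hLf i hi)
      _ ≤ ∑ i ∈ sL, j := sum_le_sum fun i hi => hj i (hsub hi) (hLf i hi)
      _ = sL.card * j := by rw [sum_const, smul_eq_mul]
  exact Nat.le_of_mul_le_mul_left h2 hb

/-- two different translates of an aperiodic set -/
theorem Ex_two (B : Finset G) (hB : Aper B) (x x' : G) (hne : x ≠ x') :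
    B.card + 1 ≤ (B.image (x + ·) ∪ B.image (x' + ·)).card := by
  by_contra hcon
  have h1 : (B.image (x + ·)).card = B.card := card_image_of_injective _ (add_right_injective x)
  have h2 : B.image (x + ·) = B.image (x + ·) ∪ B.image (x' + ·) := by
    apply eq_of_subset_of_card_le subset_union_left
    omega
  apply hne
  have h3 : x' - x = 0 := by
    apply hB
    intro b hb
    have h4 : x' + b ∈ B.image (x + ·) := by
      rw [h2]
      exact mem_union_right _ (mem_image_of_mem _ hb)
    obtain ⟨c, hc, hcb⟩ := mem_image.1 h4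
    have h5 : b + (x' - x) = c := by
      have h6 : x + c = x' + b := hcb
      have h7 : c = x + c - x := by abel
      rw [h7, h6]
      abel
    rw [h5]
    exact hc
  rw [sub_eq_zero] at h3
  exact h3.symm

theorem Ex_FS (s' : Finset ι) : FS s' (fun i => π (f i)) = (FS s' f).image π := by
  ext x
  rw [mem_image]
  constructor
  · intro hx
    obtain ⟨t, ht, rfl⟩ := mem_FS.1 hx
    refine ⟨∑ i ∈ t, f i, mem_FS.2 ⟨t, ht, rfl⟩, ?_⟩
    rw [map_sum]
  · rintro ⟨y, hy, rfl⟩
    obtain ⟨t, ht, rfl⟩ := mem_FS.1 hy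
    refine mem_FS.2 ⟨t, ht, ?_⟩
    rw [map_sum]

/-- a pair of different members in one class: most classes contain more than `Y` sums -/
theorem Ex_count (hk : ∀ x, π x = 0 ↔ x ∈ L) (j : ℕ) (h0 : ∀ i ∈ s, f i ≠ 0)
    (hA : Aper (FS s f)) (hL : gen (s.filter fun i => f i ∈ L) f = L)
    (hj : ∀ i ∈ s, f i ∈ L → lam (FS s f) (f i) ≤ j) (hLb : L ≠ ⊥)
    (i k : ι) (hi : i ∈ s.filter fun i => f i ∉ L) (hk' : k ∈ s.filter fun i => f i ∉ L)
    (hik : i ≠ k) (hpm : (f i - f k ∈ L ∧ f i ≠ f k) ∨ (f i + f k ∈ L ∧ f i ≠ - f k)) :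
    (FS (((s.filter fun i => f i ∉ L).erase i).erase k) (fun i => π (f i))).card ≤
      (FS (s.filter fun i => f i ∉ L) (fun i => π (f i))).card ∧
    Nat.card L * (FS (s.filter fun i => f i ∉ L) (fun i => π (f i))).card ≤ (FS s f).card +
      j * (Nat.card L - ((FS (s.filter fun i => f i ∈ L) f).card + 1)) +
      ((FS (s.filter fun i => f i ∉ L) (fun i => π (f i))).card -
        (FS (((s.filter fun i => f i ∉ L).erase i).erase k) (fun i => π (f i))).card) := by
  have hpartc := Ex_part s f L π hk j h0 hA hL hj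
  obtain ⟨s', hs'⟩ : ∃ s', s' = s.filter fun i => f i ∉ L := ⟨_, rfl⟩
  have hY := q_fibre s f (P := L) hk
  have hQim := q_image s f (P := L) hk
  have hT : FS s f = FS (s.filter fun i => f i ∈ L) f + FS s' f := by
    have h2 := (all_Ba1 G ι f).1 (s.filter fun i => f i ∈ L) (s.filter fun i => f i ∉ L)
      (disjoint_filter_filter_not _ _ _)
    rw [hs', ← h2, filter_union_filter_not_eq]
  have hBper : ∀ b ∈ FS (s.filter fun i => f i ∈ L) f, b ∈ L := fun b hb =>
    FS_subset_of_mem (fun i hi => (mem_filter.1 hi).2) hb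
  have hAB : Aper (FS (s.filter fun i => f i ∈ L) f) :=
    (all_Ba1 G ι f).2.1 _ _ (filter_subset _ _) hA
  rw [← hs'] at hi hk' hQim ⊢
  obtain ⟨B, hB⟩ : ∃ B, B = FS (s.filter fun i => f i ∈ L) f := ⟨_, rfl⟩
  rw [← hB] at hY hT hBper hAB ⊢
  obtain ⟨T, hTT⟩ : ∃ T, T = FS s f := ⟨_, rfl⟩
  rw [← hTT] at hpartc hY hQim hT ⊢
  rw [hQim]
  have hBl : B.card + 1 ≤ Nat.card L := by
    rw [hB]
    exact (all_Kn G).2.2.2 _ _ ⟨0, zero_mem_FS _ _⟩ hLb
      (fun x hx => FS_subset_of_mem (fun i hi => (mem_filter.1 hi).2) hx)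
      ((all_Ba1 G ι f).2.1 _ _ (filter_subset _ _) hA)
  obtain ⟨s'', hs''⟩ : ∃ s'', s'' = (s'.erase i).erase k := ⟨_, rfl⟩
  rw [← hs'', Ex_FS]
  -- the good classes
  obtain ⟨G2, hG2⟩ : ∃ G2, G2 = (T.image π).filter fun C =>
    B.card + 1 ≤ (T.filter fun x => π x = C).card := ⟨_, rfl⟩
  have hgood : ∀ x ∈ FS s' f, ∀ x' ∈ FS s' f, x ≠ x' → π x = π x' → π x ∈ G2 := by
    intro x hx x' hx' hne hπ
    rw [hG2, mem_filter]
    have h0B : (0 : G) ∈ B := by
      rw [hB]
      exact zero_mem_FS _ _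
    refine ⟨?_, ?_⟩
    · refine mem_image_of_mem π ?_
      rw [hT, ← zero_add x]
      exact add_mem_add h0B hx
    · refine (Ex_two B hAB x x' hne).trans (card_le_card ?_)
      intro z hz
      rw [mem_union] at hz
      rw [mem_filter]
      rcases hz with hz | hz
      · obtain ⟨b, hb, rfl⟩ := mem_image.1 hz
        refine ⟨?_, ?_⟩
        · show x + b ∈ T
          rw [hT, add_comm x b]
          exact add_mem_add hb hx
        · show π (x + b) = π x
          rw [map_add, (hk b).2 (hBper b hb), add_zero]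
      · obtain ⟨b, hb, rfl⟩ := mem_image.1 hz
        refine ⟨?_, ?_⟩
        · show x' + b ∈ T
          rw [hT, add_comm x' b]
          exact add_mem_add hb hx'
        · show π (x' + b) = π x
          rw [map_add, (hk b).2 (hBper b hb), add_zero, hπ]
  have hmem1 : ∀ t ⊆ s'', i ∉ t ∧ k ∉ t ∧ t ⊆ s' := by
    intro t ht
    rw [hs''] at ht
    refine ⟨fun h => ?_, fun h => ?_, fun z hz => ?_⟩
    · exact (mem_erase.1 (mem_erase.1 (ht h)).2).1 rfl
    · exact (mem_erase.1 (ht h)).1 rfl
    · exact (mem_erase.1 (mem_erase.1 (ht hz)).2).2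
  have hcard2 : ((FS s'' f).image π).card ≤ G2.card := by
    rcases hpm with ⟨hp1, hp2⟩ | ⟨hp1, hp2⟩
    · refine card_le_card_of_injOn (fun c => c + π (f i)) ?_
        (fun x _ y _ h => add_left_injective _ h)
      intro c hc
      rw [mem_coe] at hc
      obtain ⟨y, hy, rfl⟩ := mem_image.1 hc
      obtain ⟨t, ht, rfl⟩ := mem_FS.1 hy
      obtain ⟨h1, h2, h3⟩ := hmem1 t ht
      rw [mem_coe]
      show π (∑ i ∈ t, f i) + π (f i) ∈ G2
      rw [← map_add]
      refine hgood _ ?_ (∑ i ∈ t, f i + f k) ?_ ?_ ?_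
      · refine mem_FS.2 ⟨insert i t, insert_subset hi h3, ?_⟩
        rw [sum_insert h1, add_comm]
      · refine mem_FS.2 ⟨insert k t, insert_subset hk' h3, ?_⟩
        rw [sum_insert h2, add_comm]
      · intro h4
        exact hp2 (add_left_cancel h4)
      · rw [map_add, map_add]
        congr 1
        rw [← sub_eq_zero, ← map_sub]
        exact (hk _).2 hp1
    · refine card_le_card fun c hc => ?_
      obtain ⟨y, hy, rfl⟩ := mem_image.1 hc
      obtain ⟨t, ht, rfl⟩ := mem_FS.1 hy
      obtain ⟨h1, h2, h3⟩ := hmem1 t ht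
      refine hgood _ ?_ (∑ i ∈ t, f i + (f i + f k)) ?_ ?_ ?_
      · exact mem_FS.2 ⟨t, h3, rfl⟩
      · have h4 : i ∉ insert k t := by
          rw [mem_insert, not_or]
          exact ⟨hik, h1⟩
        refine mem_FS.2 ⟨insert i (insert k t), insert_subset hi (insert_subset hk' h3), ?_⟩
        rw [sum_insert h4, sum_insert h2]
        abel
      · intro h4
        have h5 : f i + f k = 0 := by
          have h6 : ∑ i ∈ t, f i + 0 = ∑ i ∈ t, f i + (f i + f k) := by
            rw [add_zero]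
            exact h4
          exact (add_left_cancel h6).symm
        exact hp2 (eq_neg_of_add_eq_zero_left h5)
      · rw [map_add, (hk _).2 hp1, add_zero]
  have hG2le : G2.card ≤ (T.image π).card := by
    rw [hG2]
    exact card_filter_le _ _
  refine ⟨hcard2.trans hG2le, ?_⟩
  -- the sum over the classes
  obtain ⟨P, hP⟩ : ∃ P, P = (T.image π).filter fun C =>
    (T.filter fun x => π x = C).card ≠ Nat.card L := ⟨_, rfl⟩
  rw [← hP] at hpartc
  have hTs : T.card = ∑ C ∈ T.image π, (T.filter fun x => π x = C).card :=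
    card_eq_sum_card_image π T
  have h3 : (T.image π).card * Nat.card L ≤
      T.card + P.card * (Nat.card L - (B.card + 1)) + ((T.image π).card - G2.card) := by
    have h4 : (T.image π).card - G2.card = ((T.image π).filter fun C =>
        ¬ (B.card + 1 ≤ (T.filter fun x => π x = C).card)).card := by
      have h5 := card_filter_add_card_filter_not (s := T.image π)
        (fun C => B.card + 1 ≤ (T.filter fun x => π x = C).card)
      rw [← hG2] at h5
      omega
    rw [h4, hTs, ← smul_eq_mul, ← sum_const, ← smul_eq_mul (a := P.card), ← sum_const, hP,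
      sum_filter, card_filter, ← sum_add_distrib, ← sum_add_distrib]
    refine sum_le_sum fun C hC => ?_
    have h5 := hY C hC
    have h6 := Ex_fib L π hk T C
    by_cases h7 : (T.filter fun x => π x = C).card = Nat.card L
    · rw [if_neg (by simpa using h7)]
      omega
    · rw [if_pos h7]
      by_cases h8 : B.card + 1 ≤ (T.filter fun x => π x = C).card
      · rw [if_neg (by simpa using h8)]
        omega
      · rw [if_pos h8]
        omega
  have h9 : P.card * (Nat.card L - (B.card + 1)) ≤ j * (Nat.card L - (B.card + 1)) :=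
    Nat.mul_le_mul_right _ hpartc
  rw [mul_comm]
  omega

/-- without such a pair the quotient family has cap 2 -/
theorem Ex_cap (hk : ∀ x, π x = 0 ↔ x ∈ L) (hcap : Cap 2 s f)
    (hno : ∀ i ∈ s.filter (fun i => f i ∉ L), ∀ k ∈ s.filter (fun i => f i ∉ L), i ≠ k →
      ¬ ((f i - f k ∈ L ∧ f i ≠ f k) ∨ (f i + f k ∈ L ∧ f i ≠ - f k))) :
    Cap 2 (s.filter fun i => f i ∉ L) (fun i => π (f i)) := by
  intro x
  rcases ((s.filter fun i => f i ∉ L).filter fun i => π (f i) = x ∨ π (f i) = -x).eq_empty_or_nonempty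
    with h1 | ⟨i0, hi0⟩
  · rw [h1, card_empty]
    exact Nat.zero_le _
  · refine (card_le_card ?_).trans (hcap (f i0))
    intro i hi
    obtain ⟨hi1, hi2⟩ := mem_filter.1 hi
    obtain ⟨hi3, hi4⟩ := mem_filter.1 hi0
    rw [mem_filter]
    refine ⟨(mem_filter.1 hi1).1, ?_⟩
    by_cases hne : i = i0
    · left
      rw [hne]
    · have h2 := hno i hi1 i0 hi3 hne
      rw [not_or] at h2
      have h3 : π (f i) = π (f i0) ∨ π (f i) = - π (f i0) := by
        have hi2' : π (f i) = x ∨ π (f i) = -x := hi2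
        rcases hi2' with h4 | h4 <;> rcases hi4 with h5 | h5
        · left; rw [h4, h5]
        · right; rw [h4, h5, neg_neg]
        · right; rw [h4, h5]
        · left; rw [h4, h5]
      rcases h3 with h3 | h3
      · left
        by_contra h4
        exact h2.1 ⟨(hk _).1 (by rw [map_sub, h3, sub_self]), h4⟩
      · right
        by_contra h4
        exact h2.2 ⟨(hk _).1 (by rw [map_add, h3, neg_add_cancel]), h4⟩

end part

end Pool.Agent.SNG
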