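import Pool.Agent.SNW.S
import Pool.Agent.SNW.W2

/-!
# SNG: gain in noncyclic groups (MP_ec93d3_co), architect helper22

`cf g t = 1 + ∑_{i ≤ t} ⌈i / g⌉` (SDG), `jh h t = ⌈t / 2h⌉`, `pn` (SNW.W2), `l0 G = |G| / exp G` (SNW.Cd).

Aim.  `TG h t` for `h ≥ 3`: a family of `t` nonzero elements, at most `2 h` of them equal to `± x`, that generates the noncyclic
group `G` and has an aperiodic set of sums `T` has `|T| ≥ min (2 c(h, t-1), c(h, t) + l0)` or `|G| ≤ |T| + J (J - 1)`, `J = ⌈t / 2h⌉`.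
Then `M1P G (l0 G - 1)` (cap 2).

The NUMERICAL statements `St_N*`, `St_B*` are checked by computer (`t ≤ 60`, `h ≤ 6`): a module `Pool/Agent/SNG/X.lean`
(`import Pool.Agent.SNG.St`, namespace `Pool.Agent.SNG`) proves `theorem thm_X : St_X`.  Useful facts (all in
`Pool.Agent.SDG` / `Pool.Agent.SNW`): `thm_Nm1` (closed form: `2 cf g (g a + r) = 2 + g a (a+1) + 2 r (a+1)`, `r ≤ g`; monotone in `t`, antitone in
`g`; `t + 1 ≤ cf g t`), `W2_tan` (tangent lines: `p t ≤ cf (2h) t - 1 + h p (p - 1)` for every `p`), `thm_N1`, `cf_le_add`.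
-/

set_option autoImplicit false

noncomputable section

open Finset Pool.Agent.Helper64.Rho Pool.Agent.SDG Pool.Agent.SNW
open scoped Classical Pointwise

namespace Pool.Agent.SNG

/-- `⌈t / 2h⌉` -/
def jh (h t : ℕ) : ℕ := (t + 2 * h - 1) / (2 * h)

/-! ### numbers, `h ≥ 3` -/

/-- **NA** (2 h).  The gain for a candidate, `h ≥ 3`.  `J = jh h (u+v)`, `t = u + v`.
IDEA.  (1) If `J ≤ Q` small or all classes proper: `Q Y ≥ (u+1) cf (2h) v` is `≥ 2 cf (2h) (t-1)` for `u ≤ 2 ⌈(t-1)/2h⌉ - 1` (`thm_N1`).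
(2) Otherwise `M Q - (J-1)(M-Y)`: with the tangent of `cf (2hM) u` at the integer `p = ⌈J / M⌉` and `w = M p - J` (`0 ≤ w < M`), and
`cf (2h) t - 1 = J t - h J (J-1)`: the difference `M cf (2hM) u - (J-1)(M-Y) - (cf (2h) t + M - 1)` is at least
`w (h (M-w) - s - v) + (J-1)(h (M-1) - v - M + Y) + h (M-1) - v`, `s = 2 h J - t`, concave in `w`. -/
def St_NA : Prop := ∀ h u v M Y Q X e : ℕ, 3 ≤ h → 2 ≤ u → 1 ≤ v → cf (2 * h) v ≤ Y → Y + 1 ≤ M →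
  cf (2 * (h * M)) u + e ≤ Q → M * Q ≤ X + (jh h (u + v) - 1) * (M - Y) → Q * Y ≤ X →
    2 * cf (2 * h) (u + v - 1) ≤ X ∨ cf (2 * h) (u + v) + M * (e + 1) ≤ X

/-- **NB** (1.5 h).  As NA, the other alternative for `Q`. -/
def St_NB : Prop := ∀ h u v M Y Q X : ℕ, 3 ≤ h → 2 ≤ u → 1 ≤ v → cf (2 * h) v ≤ Y → Y + 1 ≤ M →
  2 * cf (2 * (h * M)) (u - 1) ≤ Q → M * Q ≤ X + (jh h (u + v) - 1) * (M - Y) → Q * Y ≤ X →
    2 * cf (2 * h) (u + v - 1) ≤ X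

/-! ### numbers, cap 2 -/

/-- **NC** (2 h).  Cap 2, cyclic quotient: gain `M - 1`, `M = m a`, except for `m = 1`, `v ≤ 2`, `Y = v + 1`. -/
def St_NC : Prop := ∀ u v m a Y Q X : ℕ, 2 ≤ u → 1 ≤ v → 1 ≤ m → cf 2 v ≤ Y → Y + 1 ≤ a →
  cf (2 * (m * a)) u ≤ Q → m * a * Q ≤ X + (jh 1 (u + v) - 1) * (a - Y) → m * Q * Y ≤ X →
    pn (u + v) ≤ X ∨ cf 2 (u + v) + m * a ≤ X + 1 ∨ (m = 1 ∧ v ≤ 2 ∧ Y = v + 1)

/-- **ND** (2 h).  Cap 2, noncyclic quotient with gain `e ≥ 2`. -/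
def St_ND : Prop := ∀ u v m a Y Q X e : ℕ, 2 ≤ u → 1 ≤ v → 1 ≤ m → cf 2 v ≤ Y → Y + 1 ≤ a → 2 ≤ e →
  cf (2 * (m * a)) u + e ≤ Q → m * a * Q ≤ X + (jh 1 (u + v) - 1) * (a - Y) → m * Q * Y ≤ X →
    pn (u + v) ≤ X ∨ cf 2 (u + v) + m * a * e ≤ X + 1

/-- **NE** (1.5 h).  Cap 2, the other alternative. -/
def St_NE : Prop := ∀ u v m a Y Q X : ℕ, 2 ≤ u → 1 ≤ v → 1 ≤ m → cf 2 v ≤ Y → Y + 1 ≤ a →
  2 * cf (2 * (m * a)) (u - 1) ≤ Q → m * a * Q ≤ X + (jh 1 (u + v) - 1) * (a - Y) → m * Q * Y ≤ X →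
    pn (u + v) ≤ X

/-- **NF** (2 h).  Cap 2, the exceptional case of NC with a pair: `M = a`, `Y = v + 1`, `v ≤ 2`.  (In the tight cases of NC the deficit is `v`, at
`t ≡ 1` resp. `1, 2, 3` modulo `2 a`, and `(J - 1) - (Q - Q2)` is at least `v`; in all other cases the first inequality suffices.) -/
def St_NF : Prop := ∀ u v a Q Q2 X : ℕ, 2 ≤ u → 1 ≤ v → v ≤ 2 → v + 2 ≤ a → cf (2 * a) u ≤ Q → cf (2 * a) (u - 2) ≤ Q2 →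
  Q2 ≤ Q → a * Q ≤ X + (jh 1 (u + v) - 1) * (a - (v + 1)) →
  a * Q ≤ X + (jh 1 (u + v) - 1) * (a - (v + 2)) + (Q - Q2) → Q * (v + 1) ≤ X →
    pn (u + v) ≤ X ∨ cf 2 (u + v) + a ≤ X + 1

/-- **NG** (0.5 h).  Cap 2, the exceptional case without a pair. -/
def St_NG : Prop := ∀ u v : ℕ, 2 ≤ u → 1 ≤ v → v ≤ 2 → pn (u + v) ≤ (v + 1) * cf 2 u

/-- **NH** (1 h).  The near-full alternative of the quotient is the near-full alternative, all `h ≥ 1`.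
PROOF.  `J' = jh (h M) u ≥ 2` because `Q < n'`; `M (J' - 1) < u / 2h`, so `M (J' - 1) ≤ J - 1`, `M ≤ J - 1`;
`M n' ≤ M Q + M J' (J' - 1) ≤ X + (J-1)(M-2) + (J-1) J'` and `M - 2 + J' ≤ J` (`J' ≤ (J-1)/M + 1`, `3 ≤ M ≤ J - 1`). -/
def St_NH : Prop := ∀ h u v M Y Q X n : ℕ, 1 ≤ h → 1 ≤ v → 3 ≤ M → 2 ≤ Y → Q + 1 ≤ n →
  n ≤ Q + jh (h * M) u * (jh (h * M) u - 1) → M * Q ≤ X + (jh h (u + v) - 1) * (M - Y) →
    M * n ≤ X + jh h (u + v) * (jh h (u + v) - 1)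

/-! ### numbers, small `t`, `h ≥ 3`: `2 c(h, t-2) < c(h, t-1) + l` -/

/-- **B0** (2 h).  All members `z` satisfy `T + ⟨z⟩ = G`; `q = |G / ⟨z⟩|`, `μ` the order of `z`. -/
def St_B0 : Prop := ∀ h t l q μ X j : ℕ, 3 ≤ h → 3 ≤ t → 2 ≤ l → 3 ≤ μ → 2 * cf (2 * h) (t - 2) + 1 ≤ cf (2 * h) (t - 1) + l →
  2 * cf (2 * h) (t - 2) + j ≤ X → X + 1 ≤ 2 * cf (2 * h) (t - 1) → X + 1 ≤ cf (2 * h) t + l → (q = l ∨ 2 * l ≤ q) →
  2 * q ≤ X → μ * q ≤ X + j * (μ - 2) → μ * q ≤ X + jh h t * (jh h t - 1) ∨ (l = 2 ∧ q = 2 ∧ μ = 3)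

/-- **B1** (1.5 h).  Cyclic quotient of order `M ≥ l`. -/
def St_B1 : Prop := ∀ h u v l M Y Q X j : ℕ, 3 ≤ h → 2 ≤ u → 1 ≤ v → 2 ≤ l →
  2 * cf (2 * h) (u + v - 2) + 1 ≤ cf (2 * h) (u + v - 1) + l → 2 * cf (2 * h) (u + v - 2) + j ≤ X →
  X + 1 ≤ 2 * cf (2 * h) (u + v - 1) → X + 1 ≤ cf (2 * h) (u + v) + l → cf (2 * h) v ≤ Y → Y + 1 ≤ M → l ≤ M →
  u + 1 ≤ Q → M * Q ≤ X + j * (M - Y) → Q * Y ≤ X → False

/-- **B2** (2 h).  Noncyclic quotient, maximal candidate; `j' = j / Y`. -/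
def St_B2 : Prop := ∀ h u v l M Y Q X j μ i : ℕ, 3 ≤ h → 3 ≤ u → 1 ≤ v → 2 ≤ l →
  2 * cf (2 * h) (u + v - 2) + 1 ≤ cf (2 * h) (u + v - 1) + l → 2 * cf (2 * h) (u + v - 2) + j ≤ X →
  X + 1 ≤ 2 * cf (2 * h) (u + v - 1) → X + 1 ≤ cf (2 * h) (u + v) + l → cf (2 * h) v ≤ Y → Y + 1 ≤ M → l ≤ M * i →
  2 * u ≤ Q + 1 → M * Q ≤ X + j * (M - Y) → Q * Y ≤ X → 3 ≤ μ → μ * i ≤ Q + j / Y * (μ - 2) → False

/-! ### the theorems -/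

/-- the gain for cap `2 h`, `h ≥ 3` -/
def TG (h t : ℕ) : Prop := ∀ (G ι : Type) [AddCommGroup G] [Finite G] (s : Finset ι) (f : ι → G), s.card = t →
  (∀ i ∈ s, f i ≠ 0) → Cap (2 * h) s f → Aper (FS s f) → gen s f = ⊤ → ¬ IsAddCyclic G →
    2 * cf (2 * h) (t - 1) ≤ (FS s f).card ∨ cf (2 * h) t + l0 G ≤ (FS s f).card ∨
      Nat.card G ≤ (FS s f).card + jh h t * (jh h t - 1)

/-- the lower bound for cap 2 in all groups -/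
def PA (t : ℕ) : Prop := ∀ (G ι : Type) [AddCommGroup G] [Finite G] (s : Finset ι) (f : ι → G), s.card = t →
  (∀ i ∈ s, f i ≠ 0) → Cap 2 s f → Aper (FS s f) → cf 2 t ≤ (FS s f).card

/-- the gain for cap 2 -/
def M1 (t : ℕ) : Prop := ∀ (G ι : Type) [AddCommGroup G] [Finite G] (s : Finset ι) (f : ι → G), s.card = t →
  (∀ i ∈ s, f i ≠ 0) → Cap 2 s f → Aper (FS s f) → gen s f = ⊤ → ¬ IsAddCyclic G →
    pn t ≤ (FS s f).card ∨ cf 2 t + l0 G ≤ (FS s f).card + 1 ∨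
      Nat.card G ≤ (FS s f).card + jh 1 t * (jh 1 t - 1)

end Pool.Agent.SNG
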